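import Mathlib

/-!
# Sums of factorials in `ℤ_[p]`: extensions

`Ext Q M N`: every `S` divisible by `M!` can be continued by `c a` copies of `a!`,
`M ≤ a < N`, to a sum divisible by `N!`, with multiplicities allowed by `Q`.
-/

set_option autoImplicit false

namespace Pool.Agent.EGF48

open Finset Nat

section

variable {p : ℕ} [hp : Fact p.Prime]

/-- in `ℤ_[p]` a natural number divides whatever its `p`-part divides -/
lemma cast_dvd_of_pow_dvd {a : ℕ} (ha : a ≠ 0) {b : ℤ_[p]}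
    (h : (p : ℤ_[p]) ^ padicValNat p a ∣ b) : (a : ℤ_[p]) ∣ b := by
  obtain ⟨m, hm⟩ := (pow_padicValNat_dvd : p ^ padicValNat p a ∣ a)
  have hcop : ¬ p ∣ m := by
    intro hd
    have h1 : p ^ (padicValNat p a + 1) ∣ a := by
      rw [pow_succ]
      nth_rw 2 [hm]
      exact mul_dvd_mul_left _ hd
    exact pow_succ_padicValNat_not_dvd ha h1
  have hu : IsUnit (m : ℤ_[p]) := by
    rw [PadicInt.isUnit_iff, PadicInt.norm_natCast_eq_one_iff]
    exact (Nat.Prime.coprime_iff_not_dvd hp.out).mpr hcop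
  have e : (a : ℤ_[p]) = (p : ℤ_[p]) ^ padicValNat p a * (m : ℤ_[p]) := by
    nth_rw 1 [hm]
    push_cast
    rfl
  rw [e]
  exact (hu.mul_right_dvd).mpr h

lemma pow_dvd_cast_of_dvd {k a : ℕ} (h : p ^ k ∣ a) : (p : ℤ_[p]) ^ k ∣ (a : ℤ_[p]) := by
  obtain ⟨m, hm⟩ := h
  exact ⟨(m : ℤ_[p]), by rw [hm]; push_cast; rfl⟩

/-- digits: `z + e` is divisible by `p ^ k` for some `e < p ^ k` -/
lemma exists_digit (z : ℤ_[p]) (k : ℕ) : ∃ e : ℕ, e < p ^ k ∧ (p : ℤ_[p]) ^ k ∣ z + (e : ℤ_[p]) := by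
  refine ⟨(-z).appr k, PadicInt.appr_lt (-z) k, ?_⟩
  have h := PadicInt.appr_spec k (-z)
  rw [Ideal.mem_span_singleton] at h
  have e : z + (((-z).appr k : ℕ) : ℤ_[p]) = -(-z - (((-z).appr k : ℕ) : ℤ_[p])) := by ring
  rw [e]
  exact (dvd_neg).mpr h

/-- every `S` divisible by `M!` can be continued, with multiplicities allowed by `Q`, to a sum
divisible by `N!` -/
def Ext (p : ℕ) [Fact p.Prime] (Q : ℕ → ℕ → Prop) (M N : ℕ) : Prop :=
  ∀ S : ℤ_[p], ((M ! : ℕ) : ℤ_[p]) ∣ S → ∃ c : ℕ → ℕ, (∀ a, M ≤ a → a < N → Q a (c a)) ∧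
    ((N ! : ℕ) : ℤ_[p]) ∣ S + ∑ a ∈ Ico M N, (c a : ℤ_[p]) * ((a ! : ℕ) : ℤ_[p])

lemma Ext.refl (Q : ℕ → ℕ → Prop) (M : ℕ) : Ext p Q M M := by
  intro S hS
  refine ⟨fun _ => 0, fun a h1 h2 => by omega, ?_⟩
  simpa using hS

lemma Ext.trans {Q : ℕ → ℕ → Prop} {M K N : ℕ} (h1 : M ≤ K) (h2 : K ≤ N)
    (hA : Ext p Q M K) (hB : Ext p Q K N) : Ext p Q M N := by
  intro S hS
  obtain ⟨c, hc, hc'⟩ := hA S hS
  obtain ⟨d, hd, hd'⟩ := hB _ hc'
  refine ⟨fun a => if a < K then c a else d a, ?_, ?_⟩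
  · intro a ha1 ha2
    by_cases h : a < K
    · simp only [if_pos h]
      exact hc a ha1 h
    · simp only [if_neg h]
      exact hd a (by omega) ha2
  · rw [← sum_Ico_consecutive _ h1 h2]
    have e1 : ∑ a ∈ Ico M K, (((if a < K then c a else d a) : ℕ) : ℤ_[p]) * ((a ! : ℕ) : ℤ_[p]) =
        ∑ a ∈ Ico M K, (c a : ℤ_[p]) * ((a ! : ℕ) : ℤ_[p]) := by
      apply sum_congr rfl
      intro a ha
      rw [mem_Ico] at ha
      rw [if_pos ha.2]
    have e2 : ∑ a ∈ Ico K N, (((if a < K then c a else d a) : ℕ) : ℤ_[p]) * ((a ! : ℕ) : ℤ_[p]) =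
        ∑ a ∈ Ico K N, (d a : ℤ_[p]) * ((a ! : ℕ) : ℤ_[p]) := by
      apply sum_congr rfl
      intro a ha
      rw [mem_Ico] at ha
      rw [if_neg (by omega)]
    rw [e1, e2, ← add_assoc]
    exact hd'

lemma Ext.mono {Q Q' : ℕ → ℕ → Prop} {M N : ℕ} (h : ∀ a m, M ≤ a → a < N → Q a m → Q' a m)
    (hA : Ext p Q M N) : Ext p Q' M N := by
  intro S hS
  obtain ⟨c, hc, hc'⟩ := hA S hS
  exact ⟨c, fun a h1 h2 => h a _ h1 h2 (hc a h1 h2), hc'⟩

/-- one step, by `p`-adic digits -/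
lemma ext_succ (M : ℕ) : Ext p (fun a m => m < p ^ padicValNat p (a + 1)) M (M + 1) := by
  rintro S ⟨z, rfl⟩
  obtain ⟨e, he, he'⟩ := exists_digit z (padicValNat p (M + 1))
  refine ⟨fun _ => e, ?_, ?_⟩
  · intro a h1 h2
    have : a = M := by omega
    subst this
    exact he
  · rw [sum_Ico_succ_top (le_refl M), Ico_self, sum_empty, zero_add, Nat.factorial_succ]
    have h := cast_dvd_of_pow_dvd (Nat.succ_ne_zero M) he'
    obtain ⟨w, hw⟩ := h
    refine ⟨w, ?_⟩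
    push_cast at hw ⊢
    linear_combination ((M ! : ℕ) : ℤ_[p]) * hw

lemma ext_digits (M k : ℕ) : Ext p (fun a m => m < p ^ padicValNat p (a + 1)) M (M + k) := by
  induction k with
  | zero => exact Ext.refl _ _
  | succ k ih => exact ih.trans (by omega) (by omega) (ext_succ (M + k))

end

end Pool.Agent.EGF48
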