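import Pool.Agent.EGF48.Main

/-!
# Sums of factorials: counting the exceptional indices, explicit bounds
-/

set_option autoImplicit false

namespace Pool.Agent.EGF48

open Finset Nat Filter

/-- a residue class has at most `x / m + 1` elements below `x` -/
lemma card_class_le (m b x : ℕ) (hm : 0 < m) :
    ((range x).filter (fun a => m ∣ a + b)).card ≤ x / m + 1 := by
  rcases ((range x).filter (fun a => m ∣ a + b)).eq_empty_or_nonempty with h | ⟨v, hv⟩
  · rw [h, card_empty]
    exact Nat.zero_le _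
  · rw [mem_filter] at hv
    have hsub : (range x).filter (fun a => m ∣ a + b) ⊆
        (range x).filter (fun a => a ≡ v [MOD m]) := by
      intro a ha
      rw [mem_filter] at ha ⊢
      refine ⟨ha.1, ?_⟩
      have h1 : a + b ≡ v + b [MOD m] :=
        ((Nat.modEq_zero_iff_dvd).mpr ha.2).trans ((Nat.modEq_zero_iff_dvd).mpr hv.2).symm
      exact Nat.ModEq.add_right_cancel' b h1
    refine (card_le_card hsub).trans ?_
    rw [← Nat.count_eq_card_filter_range, Nat.count_modEq_card x hm]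
    split_ifs <;> omega

lemma two_pow_le_factorial (m : ℕ) (hm : 4 ≤ m) : 2 ^ m ≤ m ! := by
  induction m, hm using Nat.le_induction with
  | base => decide
  | succ m hm ih =>
    rw [pow_succ, Nat.factorial_succ, mul_comm]
    exact Nat.mul_le_mul (by omega) ih

lemma cube_le_factorial (p : ℕ) (hp : 7 ≤ p) : p ^ 3 ≤ (p - 1)! := by
  obtain ⟨k, rfl⟩ : ∃ k, p = k + 7 := ⟨p - 7, by omega⟩
  have h1 : (k + 7 - 1)! = (k + 6) * ((k + 5) * ((k + 4) * (k + 3)!)) := by
    rw [show k + 7 - 1 = k + 6 by omega, Nat.factorial_succ, Nat.factorial_succ,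
      Nat.factorial_succ]
  have h2 : 3 ! ≤ (k + 3)! := Nat.factorial_le (by omega)
  have h2' : 3 ! = 6 := rfl
  rw [h2'] at h2
  have h3 : (k + 4) * 6 ≤ (k + 4) * (k + 3)! := Nat.mul_le_mul_left _ h2
  have h4 : (k + 5) * ((k + 4) * 6) ≤ (k + 5) * ((k + 4) * (k + 3)!) := Nat.mul_le_mul_left _ h3
  have h5 : (k + 6) * ((k + 5) * ((k + 4) * 6)) ≤ (k + 6) * ((k + 5) * ((k + 4) * (k + 3)!)) :=
    Nat.mul_le_mul_left _ h4
  rw [h1]
  refine le_trans ?_ h5
  nlinarith [Nat.zero_le (k * k * k), Nat.zero_le (k * k)]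

/-- if `(m - 1)! < p ^ t` then `m ≤ B t`, where `B = log_2 p + 1` -/
lemma le_of_factorial_lt {p t m : ℕ} (hp : 2 ≤ p) (ht : 2 ≤ t) (h : (m - 1)! < p ^ t) :
    m ≤ (Nat.log 2 p + 1) * t := by
  have hpB : p ≤ 2 ^ (Nat.log 2 p + 1) := (Nat.lt_pow_succ_log_self (by omega) p).le
  have hB2 : 2 ≤ Nat.log 2 p + 1 := by
    have : 1 ≤ Nat.log 2 p := Nat.le_log_of_pow_le (by omega) (by omega)
    omega
  by_contra hcon
  push Not at hcon
  have h1 : 4 ≤ (Nat.log 2 p + 1) * t := by
    calc 4 = 2 * 2 := rfl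
      _ ≤ _ := Nat.mul_le_mul hB2 ht
  have h3 : 2 ^ ((Nat.log 2 p + 1) * t) ≤ (m - 1)! := by
    calc 2 ^ ((Nat.log 2 p + 1) * t) ≤ 2 ^ (m - 1) := Nat.pow_le_pow_right (by omega) (by omega)
      _ ≤ (m - 1)! := two_pow_le_factorial _ (by omega)
  have h4 : p ^ t ≤ 2 ^ ((Nat.log 2 p + 1) * t) := by
    rw [pow_mul]
    exact Nat.pow_le_pow_left hpB t
  omega

/-- an index below `N` is in one of finitely many classes, depending on its distance -/
lemma class_of_dist {p a t i s C L : ℕ} (hC : 1 ≤ C) (hst : s ≤ t) (htL : t < L)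
    (hi1 : 1 ≤ i) (hi : i ≤ C * t + 1) (hd : p ^ t ∣ a + i) :
    (∃ i ∈ Ico 1 (C * s + 2), p ^ s ∣ a + i) ∨
      ∃ k ∈ Ico (s + 1) L, ∃ i ∈ Ico (C * (k - 1) + 2) (C * (k - 1) + 2 + C), p ^ k ∣ a + i := by
  rcases Nat.lt_or_ge i (C * s + 2) with h | h
  · left
    exact ⟨i, mem_Ico.mpr ⟨hi1, h⟩, (pow_dvd_pow p hst).trans hd⟩
  · right
    have hdm : C * ((i - 2) / C) + (i - 2) % C = i - 2 := Nat.div_add_mod _ _
    have hmod : (i - 2) % C < C := Nat.mod_lt _ (by omega)
    have h2 : s ≤ (i - 2) / C := by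
      rw [Nat.le_div_iff_mul_le (by omega)]
      have : s * C = C * s := mul_comm _ _
      omega
    have h3 : (i - 2) / C < t := by
      rw [Nat.div_lt_iff_lt_mul (by omega)]
      have : t * C = C * t := mul_comm _ _
      omega
    refine ⟨(i - 2) / C + 1, mem_Ico.mpr ⟨by omega, by omega⟩, i, ?_, ?_⟩
    · rw [mem_Ico, Nat.add_sub_cancel]
      omega
    · exact (pow_dvd_pow p (by omega)).trans hd

/-- the union of the classes of `class_of_dist` -/
def classes (p C s L x : ℕ) : Finset ℕ :=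
  (Ico 1 (C * s + 2)).biUnion (fun i => (range x).filter (fun a => p ^ s ∣ a + i)) ∪
    (Ico (s + 1) L).biUnion (fun k => (Ico (C * (k - 1) + 2) (C * (k - 1) + 2 + C)).biUnion
      (fun i => (range x).filter (fun a => p ^ k ∣ a + i)))

lemma card_classes_le {p : ℕ} (hp2 : 2 ≤ p) (C s x : ℕ) :
    (classes p C s (Nat.log p x + 2) x).card ≤
      (C * s + 1) * (x / p ^ s + 1) + C * (x / (p ^ s * (p - 1)) + (Nat.log p x + 1 - s)) := by
  unfold classes
  have hA : ((Ico 1 (C * s + 2)).biUnion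
      (fun i => (range x).filter (fun a => p ^ s ∣ a + i))).card ≤
      (C * s + 1) * (x / p ^ s + 1) := by
    refine (card_biUnion_le_card_mul _ _ (x / p ^ s + 1)
      (fun i _ => card_class_le _ _ x (pow_pos (by omega) _))).trans (le_of_eq ?_)
    rw [Nat.card_Ico]
    congr 1
  have hB' : ((Ico (s + 1) (Nat.log p x + 2)).biUnion
        (fun k => (Ico (C * (k - 1) + 2) (C * (k - 1) + 2 + C)).biUnion
        (fun i => (range x).filter (fun a => p ^ k ∣ a + i)))).card ≤
      ∑ k ∈ Ico (s + 1) (Nat.log p x + 2), C * (x / p ^ k + 1) := by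
    refine card_biUnion_le.trans (sum_le_sum fun k _ => ?_)
    refine (card_biUnion_le_card_mul _ _ (x / p ^ k + 1)
      (fun i _ => card_class_le _ _ x (pow_pos (by omega) _))).trans (le_of_eq ?_)
    rw [Nat.card_Ico, Nat.add_sub_cancel_left]
  have h6 : ∑ k ∈ Ico (s + 1) (Nat.log p x + 2), x / p ^ k ≤ x / (p ^ s * (p - 1)) := by
    rcases Nat.lt_or_ge (Nat.log p x + 2) (s + 1) with h | h
    · rw [Ico_eq_empty (by omega), sum_empty]
      exact Nat.zero_le _
    · have h6 := Nat.geom_sum_Ico_le hp2 (x / p ^ s) (Nat.log p x + 2 - s)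
      rw [Nat.div_div_eq_div_mul] at h6
      refine le_trans (le_of_eq ?_) h6
      have h7 := sum_Ico_add' (fun k => x / p ^ k) 1 (Nat.log p x + 2 - s) s
      rw [show Nat.log p x + 2 - s + s = Nat.log p x + 2 by omega, add_comm 1 s] at h7
      rw [← h7]
      apply sum_congr rfl
      intro k _
      rw [Nat.div_div_eq_div_mul, pow_add, mul_comm (p ^ k) (p ^ s)]
  have h8 : ∑ k ∈ Ico (s + 1) (Nat.log p x + 2), C * (x / p ^ k + 1) ≤
      C * (x / (p ^ s * (p - 1)) + (Nat.log p x + 1 - s)) := by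
    rw [← mul_sum, sum_add_distrib, sum_const, Nat.card_Ico, smul_eq_mul, mul_one]
    exact Nat.mul_le_mul_left _ (by omega)
  have hU' := card_union_le ((Ico 1 (C * s + 2)).biUnion
      (fun i => (range x).filter (fun a => p ^ s ∣ a + i)))
      ((Ico (s + 1) (Nat.log p x + 2)).biUnion
        (fun k => (Ico (C * (k - 1) + 2) (C * (k - 1) + 2 + C)).biUnion
        (fun i => (range x).filter (fun a => p ^ k ∣ a + i))))
  omega

/-- the members below `x` of the long windows -/
lemma mem_classes_of_long {p a x : ℕ} (hp : p.Prime) (hp7 : 7 ≤ p) (hax : a < x)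
    (h : LongW p a) : a ∈ classes p (p * (Nat.log 2 p + 1)) 4 (Nat.log p x + 2) x := by
  have hfact : Fact p.Prime := ⟨hp⟩
  have hp2 := hp.two_le
  obtain ⟨N, haN, hN2, hlog, hfac, R, hR, hNR⟩ := h
  set B := Nat.log 2 p + 1 with hB
  have hB1 : 1 ≤ B := by omega
  have hlog' : Nat.log p a ≤ Nat.log p x := Nat.log_mono_right hax.le
  have hN0 : N ≠ 0 := by omega
  have hval : p ^ padicValNat p N ∣ N := pow_padicValNat_dvd
  have hv : 2 ≤ padicValNat p N := (padicValNat_dvd_iff_le hN0).mp hN2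
  obtain ⟨i, hi⟩ : ∃ i, N = a + i := ⟨N - a, by omega⟩
  have hval' : p ^ padicValNat p N ∣ a + i := by
    rw [← hi]
    exact hval
  have h1 : R ≤ B * padicValNat p N := le_of_factorial_lt hp2 hv hR
  have h2 : p * R ≤ p * (B * padicValNat p N) := Nat.mul_le_mul_left _ h1
  rw [← mul_assoc] at h2
  have h3 : 4 ≤ padicValNat p N := by
    by_contra hcon
    have h4 : p ^ padicValNat p N ≤ p ^ 3 := Nat.pow_le_pow_right (by omega) (by omega)
    have := cube_le_factorial p hp7
    omega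
  have hpB1 : 1 ≤ p * B := Nat.mul_pos (by omega) hB1
  unfold classes
  simp only [mem_union, mem_biUnion, mem_filter]
  rcases class_of_dist (a := a) (i := i) hpB1 h3
    (show padicValNat p N < Nat.log p x + 2 by omega) (by omega) (by omega) hval' with
    ⟨i, h2, h3⟩ | ⟨k, h2, i, h3, h4⟩
  · exact Or.inl ⟨i, h2, mem_range.mpr hax, h3⟩
  · exact Or.inr ⟨k, h2, i, h3, mem_range.mpr hax, h4⟩

theorem card_exceptional_le {p : ℕ} (hp : p.Prime) (hp7 : 7 ≤ p) (c : ℕ → ℕ)
    (hQ : ∀ a, Q p a (c a)) (x : ℕ) :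
    ((range x).filter (fun a => 1 < c a)).card ≤
      4 * (Nat.log 2 p + 1) * (x / p ^ 2) +
        2 * p * (Nat.log 2 p + 1) * (Nat.log p x + 3) := by
  have hfact : Fact p.Prime := ⟨hp⟩
  have hp2 := hp.two_le
  have hsub : (range x).filter (fun a => 1 < c a) ⊆
      classes p (Nat.log 2 p + 1) 2 (Nat.log p x + 2) x ∪
        classes p (p * (Nat.log 2 p + 1)) 4 (Nat.log p x + 2) x := by
    intro a ha
    rw [mem_filter] at ha
    have hax := mem_range.mp ha.1
    rw [mem_union]
    have hlog' : Nat.log p a ≤ Nat.log p x := Nat.log_mono_right hax.le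
    rcases hQ a with h | ⟨N, haN, hN2, hlog, hor⟩
    · omega
    · have hN0 : N ≠ 0 := by omega
      have hval : p ^ padicValNat p N ∣ N := pow_padicValNat_dvd
      have hv : 2 ≤ padicValNat p N := (padicValNat_dvd_iff_le hN0).mp hN2
      rcases hor with ⟨hfac, _⟩ | ⟨hfac, R, hR, hNR, _⟩
      · left
        obtain ⟨i, hi⟩ : ∃ i, N = a + i := ⟨N - a, by omega⟩
        have hval' : p ^ padicValNat p N ∣ a + i := by
          rw [← hi]
          exact hval
        unfold classes
        simp only [mem_union, mem_biUnion, mem_filter]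
        have h1 : N - a - 1 ≤ (Nat.log 2 p + 1) * padicValNat p N := by
          apply le_of_factorial_lt hp2 hv
          rwa [show N - a - 1 - 1 = N - a - 2 by omega]
        rcases class_of_dist (a := a) (i := i) (show 1 ≤ Nat.log 2 p + 1 by omega) hv
          (show padicValNat p N < Nat.log p x + 2 by omega) (by omega) (by omega) hval' with
          ⟨i, h2, h3⟩ | ⟨k, h2, i, h3, h4⟩
        · exact Or.inl ⟨i, h2, ha.1, h3⟩
        · exact Or.inr ⟨k, h2, i, h3, ha.1, h4⟩
      · right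
        exact mem_classes_of_long hp hp7 hax ⟨N, haN, hN2, hlog, hfac, R, hR, hNR⟩
  set B := Nat.log 2 p + 1 with hB
  have hB1 : 1 ≤ B := by omega
  have hU := card_le_card hsub
  have hU' := card_union_le (classes p B 2 (Nat.log p x + 2) x)
    (classes p (p * B) 4 (Nat.log p x + 2) x)
  have h1 := card_classes_le hp2 B 2 x
  have h2 := card_classes_le hp2 (p * B) 4 x
  set y := x / p ^ 2 with hy
  have e1 : x / (p ^ 2 * (p - 1)) = y / (p - 1) := by
    rw [hy, Nat.div_div_eq_div_mul]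
  have e2 : x / p ^ 4 = y / p ^ 2 := by
    rw [hy, Nat.div_div_eq_div_mul, ← pow_add]
  have e3 : x / (p ^ 4 * (p - 1)) = y / p ^ 2 / (p - 1) := by
    rw [hy, Nat.div_div_eq_div_mul, Nat.div_div_eq_div_mul]
    congr 1
    ring
  rw [e1] at h1
  rw [e2, e3] at h2
  have f1 : 6 * (y / (p - 1)) ≤ y := by
    calc 6 * (y / (p - 1)) ≤ (p - 1) * (y / (p - 1)) := Nat.mul_le_mul_right _ (by omega)
      _ ≤ y := Nat.mul_div_le _ _
  have f2 : 7 * (p * (y / p ^ 2)) ≤ y := by
    calc 7 * (p * (y / p ^ 2)) ≤ p * (p * (y / p ^ 2)) := Nat.mul_le_mul_right _ hp7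
      _ = p ^ 2 * (y / p ^ 2) := by ring
      _ ≤ y := Nat.mul_div_le _ _
  have f3 : 6 * (y / p ^ 2 / (p - 1)) ≤ y / p ^ 2 := by
    calc 6 * (y / p ^ 2 / (p - 1)) ≤ (p - 1) * (y / p ^ 2 / (p - 1)) :=
          Nat.mul_le_mul_right _ (by omega)
      _ ≤ y / p ^ 2 := Nat.mul_div_le _ _
  generalize y / (p - 1) = A1 at *
  generalize y / p ^ 2 / (p - 1) = A3 at *
  generalize y / p ^ 2 = A2 at *
  have g1 : Nat.log p x + 1 - 2 ≤ Nat.log p x := by omega
  have g2 : Nat.log p x + 1 - 4 ≤ Nat.log p x := by omega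
  generalize Nat.log p x + 1 - 2 = L1 at *
  generalize Nat.log p x + 1 - 4 = L2 at *
  generalize Nat.log p x = L at *
  -- everything is now elementary
  have k1 : (B * 2 + 1) * (y + 1) + B * (A1 + L1) ≤
      (2 * B + 1) * y + (2 * B + 1) + B * A1 + B * L := by
    have : B * L1 ≤ B * L := Nat.mul_le_mul_left _ g1
    nlinarith
  have k2 : (p * B * 4 + 1) * (A2 + 1) + p * B * (A3 + L2) ≤
      B * (4 * (p * A2)) + A2 + B * (p * A3) + (4 * (p * B) + 1) + p * B * L := by
    have : p * B * L2 ≤ p * B * L := Nat.mul_le_mul_left _ g2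
    nlinarith
  have k3 : 42 * (A1 + 4 * (p * A2) + A2 + p * A3) ≤ 42 * y := by
    have h9 : p * (6 * A3) ≤ p * A2 := Nat.mul_le_mul_left _ f3
    have h10 : 7 * A2 ≤ p * A2 := Nat.mul_le_mul_right _ hp7
    nlinarith
  have k4 : A1 + 4 * (p * A2) + A2 + p * A3 ≤ y := by omega
  have k5 : B * (A1 + 4 * (p * A2) + A2 + p * A3) ≤ B * y := Nat.mul_le_mul_left _ k4
  have k6 : A2 ≤ B * A2 := Nat.le_mul_of_pos_left _ hB1
  have k7 : y ≤ B * y := Nat.le_mul_of_pos_left _ hB1
  have k8 : 7 * B ≤ p * B := Nat.mul_le_mul_right _ hp7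
  have k9 : B * L ≤ p * B * L := Nat.mul_le_mul_right _ (Nat.le_mul_of_pos_left _ (by omega))
  nlinarith

lemma seven_mul_le {p : ℕ} (hp : p.Prime) (hp7 : 7 ≤ p) : 7 * (Nat.log 2 p + 1) ≤ 3 * p := by
  have h1 : 2 ^ Nat.log 2 p ≤ p := Nat.pow_log_le_self 2 (by omega)
  rcases Nat.lt_or_ge (Nat.log 2 p) 4 with h | h
  · rcases Nat.lt_or_ge p 10 with h2 | h2
    · have h3 : p = 7 := by
        rcases (show p = 7 ∨ p = 8 ∨ p = 9 by omega) with h3 | h3 | h3
        · exact h3
        · exfalso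
          rw [h3] at hp
          revert hp
          norm_num
        · exfalso
          rw [h3] at hp
          revert hp
          norm_num
      have h4 : Nat.log 2 p < 3 := by
        apply Nat.log_lt_of_lt_pow (by omega)
        rw [h3]
        norm_num
      omega
    · omega
  · have h5 : ∀ b, 4 ≤ b → 7 * (b + 1) ≤ 3 * 2 ^ b := by
      intro b hb
      induction b, hb using Nat.le_induction with
      | base => norm_num
      | succ b hb ih =>
        have h6 : 2 ^ 4 ≤ 2 ^ b := Nat.pow_le_pow_right (by omega) hb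
        rw [pow_succ]
        omega
    have := h5 _ h
    omega

/-- many numbers occur exactly once -/
theorem card_single_ge {p : ℕ} (hp : p.Prime) (hp7 : 7 ≤ p) (c : ℕ → ℕ)
    (hQ : ∀ a, p ^ 3 ≤ a → Q' p a (c a)) (x : ℕ) :
    (p - 3) * (x / p ^ 2) ≤ ((range x).filter (fun a => c a = 1)).card +
      (4 * p ^ 2 + p * (Nat.log 2 p + 1) * Nat.log p x) := by
  have hp2 := hp.two_le
  have hsub : (range x).filter (fun a => p ∣ a) ⊆
      (range x).filter (fun a => c a = 1) ∪ ((range (p ^ 3)).filter (fun a => p ∣ a + 0) ∪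
        ((range x).filter (fun a => p ^ 2 ∣ a + p) ∪
          classes p (p * (Nat.log 2 p + 1)) 4 (Nat.log p x + 2) x)) := by
    intro a ha
    rw [mem_filter] at ha
    rw [mem_union, mem_union, mem_union, mem_filter, mem_filter, mem_filter]
    rcases Nat.lt_or_ge a (p ^ 3) with h | h
    · exact Or.inr (Or.inl ⟨mem_range.mpr h, by rw [add_zero]; exact ha.2⟩)
    · by_cases h2 : p ^ 2 ∣ a + p
      · exact Or.inr (Or.inr (Or.inl ⟨ha.1, h2⟩))
      · rcases (hQ a h).2 ha.2 h2 with h3 | h3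
        · exact Or.inl ⟨ha.1, h3⟩
        · exact Or.inr (Or.inr (Or.inr (mem_classes_of_long hp hp7 (mem_range.mp ha.1) h3)))
  have hA : x / p ≤ ((range x).filter (fun a => p ∣ a)).card := by
    have h1 : (range x).filter (fun a => p ∣ a) = (range x).filter (fun a => a ≡ 0 [MOD p]) := by
      apply filter_congr
      intro a _
      exact (Nat.modEq_zero_iff_dvd).symm
    rw [h1, ← Nat.count_eq_card_filter_range, Nat.count_modEq_card x (by omega)]
    exact Nat.le_add_right _ _
  have hU := card_le_card hsub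
  have hU1 := card_union_le ((range x).filter (fun a => c a = 1))
    ((range (p ^ 3)).filter (fun a => p ∣ a + 0) ∪
        ((range x).filter (fun a => p ^ 2 ∣ a + p) ∪
          classes p (p * (Nat.log 2 p + 1)) 4 (Nat.log p x + 2) x))
  have hU2 := card_union_le ((range (p ^ 3)).filter (fun a => p ∣ a + 0))
        ((range x).filter (fun a => p ^ 2 ∣ a + p) ∪
          classes p (p * (Nat.log 2 p + 1)) 4 (Nat.log p x + 2) x)
  have hU3 := card_union_le ((range x).filter (fun a => p ^ 2 ∣ a + p))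
          (classes p (p * (Nat.log 2 p + 1)) 4 (Nat.log p x + 2) x)
  have hC1 := card_class_le p 0 (p ^ 3) (by omega)
  have hC2 := card_class_le (p ^ 2) p x (pow_pos (by omega) _)
  have hC3 := card_classes_le hp2 (p * (Nat.log 2 p + 1)) 4 x
  have hdiv : p ^ 3 / p = p ^ 2 := by
    rw [show p ^ 3 = p ^ 2 * p by ring]
    exact Nat.mul_div_cancel _ (by omega)
  rw [hdiv] at hC1
  have h7 := seven_mul_le hp hp7
  set B := Nat.log 2 p + 1 with hB
  have hB1 : 1 ≤ B := by omega
  have hxp : p * (x / p ^ 2) ≤ x / p := by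
    have : x / p ^ 2 = x / p / p := by
      rw [Nat.div_div_eq_div_mul, sq]
    rw [this]
    exact Nat.mul_div_le _ _
  set y := x / p ^ 2 with hy
  have e2 : x / p ^ 4 = y / p ^ 2 := by
    rw [hy, Nat.div_div_eq_div_mul, ← pow_add]
  have e3 : x / (p ^ 4 * (p - 1)) = y / p ^ 2 / (p - 1) := by
    rw [hy, Nat.div_div_eq_div_mul, Nat.div_div_eq_div_mul]
    congr 1
    ring
  rw [e2, e3] at hC3
  have f2 : p * (p * (y / p ^ 2)) ≤ y := by
    calc p * (p * (y / p ^ 2)) = p ^ 2 * (y / p ^ 2) := by ring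
      _ ≤ y := Nat.mul_div_le _ _
  have f3 : 6 * (y / p ^ 2 / (p - 1)) ≤ y / p ^ 2 := by
    calc 6 * (y / p ^ 2 / (p - 1)) ≤ (p - 1) * (y / p ^ 2 / (p - 1)) :=
          Nat.mul_le_mul_right _ (by omega)
      _ ≤ y / p ^ 2 := Nat.mul_div_le _ _
  generalize y / p ^ 2 / (p - 1) = A3 at *
  generalize y / p ^ 2 = A2 at *
  have g2 : Nat.log p x + 1 - 4 ≤ Nat.log p x := by omega
  generalize Nat.log p x + 1 - 4 = L2 at *
  generalize Nat.log p x = L at *
  have k1 : 7 * (p * B * 4 * A2) ≤ 12 * y := by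
    have h1 : 4 * (p * A2) * (7 * B) ≤ 4 * (p * A2) * (3 * p) := Nat.mul_le_mul_left _ h7
    nlinarith
  have k2 : 49 * A2 ≤ y := by
    have h1 : 7 * (7 * A2) ≤ p * (p * A2) :=
      Nat.mul_le_mul hp7 (Nat.mul_le_mul_right _ hp7)
    omega
  have k3 : 14 * (p * B * A3) ≤ y := by
    have h1 : p * A3 * (7 * B) ≤ p * A3 * (3 * p) := Nat.mul_le_mul_left _ h7
    have h2 : p * p * (6 * A3) ≤ p * p * A2 := Nat.mul_le_mul_left _ f3
    nlinarith
  have k4 : p * B * L2 ≤ p * B * L := Nat.mul_le_mul_left _ g2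
  have k5 : 7 * (p * B * 4) ≤ 12 * p ^ 2 := by
    have h1 : 4 * p * (7 * B) ≤ 4 * p * (3 * p) := Nat.mul_le_mul_left _ h7
    nlinarith
  have k6 : 49 ≤ p ^ 2 := by nlinarith
  have k7 : (p * B * 4 + 1) * (A2 + 1) + p * B * (A3 + L2) =
      p * B * 4 * A2 + A2 + p * B * 4 + 1 + p * B * A3 + p * B * L2 := by ring
  have k8 : (p - 3) * y + 3 * y = p * y := by
    rw [← add_mul, Nat.sub_add_cancel (by omega)]
  omega

/-- explicit form of the bound for the multiplicities -/
theorem lt_of_Q {p a m k l : ℕ} (hp : p.Prime) (h0 : a = 0 → m = 0) (hQ : Q p a m)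
    (hk : p * a ≤ k !) (hl : k ≤ l !) : m < (p * k + 1) * (l + 1) ^ 2 := by
  have hp2 := hp.two_le
  rcases Nat.eq_zero_or_pos a with ha | ha
  · rw [h0 ha]
    positivity
  have hpa : 2 * 1 ≤ p * a := Nat.mul_le_mul hp2 ha
  have hk2 : 2 ≤ k := by
    by_contra hcon
    have : k ! ≤ 1 ! := Nat.factorial_le (by omega)
    have h1 : 1 ! = 1 := rfl
    omega
  have hl2 : 2 ≤ l := by
    by_contra hcon
    have : l ! ≤ 1 ! := Nat.factorial_le (by omega)
    have h1 : 1 ! = 1 := rfl
    omega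
  have hbig : p * k + 1 ≤ (p * k + 1) * (l + 1) ^ 2 :=
    Nat.le_mul_of_pos_right _ (by positivity)
  have hpk : 2 * k ≤ p * k := Nat.mul_le_mul_right _ hp2
  rcases hQ with h | ⟨N, haN, hN2, hlog, hor⟩
  · omega
  · have h1 : p ^ padicValNat p N ≤ p * a := by
      calc p ^ padicValNat p N ≤ p ^ (Nat.log p a + 1) := Nat.pow_le_pow_right (by omega) hlog
        _ = p * p ^ Nat.log p a := by ring
        _ ≤ p * a := Nat.mul_le_mul_left _ (Nat.pow_log_le_self p (by omega))
    rcases hor with ⟨hfac, hlt⟩ | ⟨_, R, hR, hNR, hall⟩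
    · have h2 : N - a - 2 < k := by
        by_contra hcon
        push Not at hcon
        have := Nat.factorial_le hcon
        omega
      omega
    · have h2 : R ≤ k := by
        by_contra hcon
        push Not at hcon
        have : k ! ≤ (R - 1)! := Nat.factorial_le (by omega)
        omega
      have h3 := hall l (by omega) (h2.trans hl)
      have h4 : p * R ≤ p * k := Nat.mul_le_mul_left _ h2
      refine lt_of_lt_of_le h3 (Nat.mul_le_mul_right _ (by omega))

end Pool.Agent.EGF48
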