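import Pool.Agent.EGF48.Nested

/-!
# Sums of factorials: assembling the infinite sequence of multiplicities
-/

set_option autoImplicit false

namespace Pool.Agent.EGF48

open Finset Nat Filter

/-- `a` lies in one of the long windows -/
def LongW (p a : ℕ) : Prop :=
  ∃ N : ℕ, a < N ∧ p ^ 2 ∣ N ∧ padicValNat p N ≤ Nat.log p a + 1 ∧
    (p - 1)! < p ^ padicValNat p N ∧ ∃ R : ℕ, (R - 1)! < p ^ padicValNat p N ∧ N ≤ a + p * R

/-- the multiplicities allowed in the theorem -/
def Q (p a m : ℕ) : Prop :=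
  m ≤ 1 ∨ ∃ N : ℕ, a < N ∧ p ^ 2 ∣ N ∧ padicValNat p N ≤ Nat.log p a + 1 ∧
    (((N - a - 2)! < p ^ padicValNat p N ∧ m < N - a) ∨
      ((p - 1)! < p ^ padicValNat p N ∧ ∃ R : ℕ, (R - 1)! < p ^ padicValNat p N ∧
        N ≤ a + p * R ∧ ∀ l, 1 ≤ l → R ≤ l ! → m < (N + 1 - a) * (l + 1) ^ 2))

/-- the multiplicities allowed from `p ^ 3` on -/
def Q' (p a m : ℕ) : Prop :=
  Q p a m ∧ (p ∣ a → ¬ p ^ 2 ∣ a + p → m = 1 ∨ LongW p a)

theorem ext_all {p : ℕ} [hp : Fact p.Prime] (j : ℕ) (hj : 3 ≤ j) :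
    ∀ N : ℕ, p ∣ N → p ^ j ≤ N → Ext p (Q' p) (p ^ j) N := by
  have hp2 := hp.out.two_le
  intro N
  induction N using Nat.strong_induction_on with
  | _ N ih =>
    intro hpN hle
    rcases Nat.eq_or_lt_of_le hle with h | h
    · rw [← h]
      exact Ext.refl _ _
    · obtain ⟨n, rfl⟩ : ∃ n, N = n + 1 := ⟨N - 1, by omega⟩
      have ht1 : 1 ≤ padicValNat p (n + 1) := one_le_padicValNat_of_dvd (Nat.succ_ne_zero n) hpN
      have hval : p ^ padicValNat p (n + 1) ∣ n + 1 := pow_padicValNat_dvd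
      have hpj : p ∣ p ^ j := dvd_pow_self p (by omega)
      have hMp : p ^ j ≤ n + 1 - p := by
        have := Nat.le_of_dvd (by omega) (Nat.dvd_sub hpN hpj)
        omega
      have hprev := ih (n + 1 - p) (by omega) (Nat.dvd_sub hpN (dvd_refl p)) hMp
      rcases Nat.eq_or_lt_of_le ht1 with h1 | h1
      · exact hprev.trans hMp (by omega)
          ((ext_one n h1.symm).mono (fun a m _ _ h => ⟨Or.inl h.1, fun h2 _ => Or.inl (h.2 h2)⟩))
      · obtain ⟨R, hR0, hR, hR', hRt, hR4⟩ := exists_radius p (padicValNat p (n + 1)) hp2 h1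
        have hp2N : p ^ 2 ∣ n + 1 := (pow_dvd_pow p h1).trans hval
        -- the logarithm of the members of a window
        have hlog : ∀ a, p ^ (padicValNat p (n + 1) - 1) ≤ a →
            padicValNat p (n + 1) ≤ Nat.log p a + 1 := by
          intro a ha
          have : padicValNat p (n + 1) - 1 ≤ Nat.log p a := Nat.le_log_of_pow_le (by omega) ha
          omega
        rcases Nat.lt_or_ge R p with hRp | hRp
        · -- small radius
          have hlow : p ^ (padicValNat p (n + 1) - 1) ≤ n + 1 - p := by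
            rcases Nat.lt_or_ge j (padicValNat p (n + 1)) with hjs | hjs
            · have h2 := Nat.le_of_dvd (Nat.succ_pos n) hval
              obtain ⟨s, hs⟩ : ∃ s, padicValNat p (n + 1) = s + 1 :=
                ⟨padicValNat p (n + 1) - 1, by omega⟩
              rw [hs] at h2 ⊢
              rw [Nat.add_sub_cancel]
              have h3 : 2 * p ^ s ≤ p ^ (s + 1) := by
                rw [pow_succ, mul_comm (p ^ s) p]
                exact Nat.mul_le_mul_right _ hp2
              have h4 : p ≤ p ^ s := Nat.le_self_pow (by omega) p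
              omega
            · exact (Nat.pow_le_pow_right (by omega) (by omega)).trans hMp
          refine hprev.trans hMp (by omega) ((ext_small n _ R rfl h1 hR hR' hRp).mono ?_)
          intro a m ha1 ha2 hor
          refine ⟨?_, ?_⟩
          · rcases hor with h2 | ⟨h2, h3⟩
            · exact Or.inl h2
            · exact Or.inr ⟨n + 1, ha2, hp2N, hlog a (hlow.trans ha1), Or.inl ⟨h2, h3⟩⟩
          · intro h2 h3
            exfalso
            apply h3
            have h4 : p ∣ n + 1 - a := Nat.dvd_sub hpN h2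
            have h5 : n + 1 - a = p := le_antisymm (by omega) (Nat.le_of_dvd (by omega) h4)
            rw [show a + p = n + 1 by omega]
            exact hp2N
        · -- the exponent of the window
          have hex : ∃ i, R + 1 ≤ p ^ i := ⟨_, hRt⟩
          classical
          obtain ⟨i, hidef⟩ : ∃ i, i = Nat.find hex := ⟨_, rfl⟩
          have hi : R + 1 ≤ p ^ i := by
            rw [hidef]
            exact Nat.find_spec hex
          have hi1 : 1 ≤ i := by
            by_contra hcon
            have : i = 0 := by omega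
            rw [this, pow_zero] at hi
            omega
          have hi' : p ^ (i - 1) ≤ R := by
            by_contra hcon
            push Not at hcon
            exact Nat.find_min hex (m := i - 1) (by omega) hcon
          have hit : i ≤ padicValNat p (n + 1) := by
            rw [hidef]
            exact Nat.find_min' hex hRt
          have hK : p ^ j ≤ n + 1 - p ^ i ∧
              p ^ (padicValNat p (n + 1) - 1) ≤ n + 1 - p ^ i := by
            rcases Nat.lt_or_ge j (padicValNat p (n + 1)) with hjs | hjs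
            · have h2 := Nat.le_of_dvd (Nat.succ_pos n) hval
              have h3 : p ^ j ≤ p ^ (padicValNat p (n + 1) - 1) :=
                Nat.pow_le_pow_right (by omega) (by omega)
              have h4 : i ≤ padicValNat p (n + 1) - 1 := by
                rw [hidef]
                exact Nat.find_min' hex (hR4 (by omega))
              have h5 : p ^ i ≤ p ^ (padicValNat p (n + 1) - 1) :=
                Nat.pow_le_pow_right (by omega) h4
              have h6 : 2 * p ^ (padicValNat p (n + 1) - 1) ≤ p ^ padicValNat p (n + 1) := by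
                obtain ⟨s, hs⟩ : ∃ s, padicValNat p (n + 1) = s + 1 :=
                  ⟨padicValNat p (n + 1) - 1, by omega⟩
                rw [hs, Nat.add_sub_cancel, pow_succ, mul_comm (p ^ s) p]
                exact Nat.mul_le_mul_right _ hp2
              omega
            · have h2 : p ^ padicValNat p (n + 1) ∣ n + 1 - p ^ j :=
                Nat.dvd_sub hval (pow_dvd_pow p hjs)
              have h3 := Nat.le_of_dvd (by omega) h2
              have h4 : p ^ (padicValNat p (n + 1) - 1) ≤ p ^ j :=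
                Nat.pow_le_pow_right (by omega) (by omega)
              have h5 : p ^ i ≤ p ^ padicValNat p (n + 1) :=
                Nat.pow_le_pow_right (by omega) hit
              omega
          have hpi : p ∣ p ^ i := dvd_pow_self p (by omega)
          have hpj0 : 0 < p ^ j := pow_pos (by omega) _
          have hpi0 : 0 < p ^ i := pow_pos (by omega) _
          refine (ih _ (by omega) (Nat.dvd_sub hpN hpi) hK.1).trans hK.1 (by omega)
            ((ext_big n _ R i rfl hR hi1 hi hit (by omega)).mono ?_)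
          intro a m ha1 ha2 hall
          have g1 : (p - 1)! < p ^ padicValNat p (n + 1) :=
            lt_of_le_of_lt (Nat.factorial_le (by omega)) hR'
          have g2 : n + 1 ≤ a + p * R := by
            have h2 : p ^ i = p * p ^ (i - 1) := by
              obtain ⟨s, hs⟩ : ∃ s, i = s + 1 := ⟨i - 1, by omega⟩
              rw [hs, Nat.add_sub_cancel, pow_succ, mul_comm]
            have h3 : p * p ^ (i - 1) ≤ p * R := Nat.mul_le_mul_left _ hi'
            omega
          refine ⟨Or.inr ⟨n + 1, ha2, hp2N, hlog a (hK.2.trans ha1), Or.inr ⟨g1, R, hR', g2, ?_⟩⟩,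
            fun _ _ => Or.inr ⟨n + 1, ha2, hp2N, hlog a (hK.2.trans ha1), g1, R, hR', g2⟩⟩
          intro l hl1 hl2
          exact hall l hl1 (hi'.trans hl2)

theorem assemble {p : ℕ} [Fact p.Prime] (R : ℕ → ℕ → Prop) (m : ℕ → ℕ) (hm : StrictMono m)
    (hext : ∀ k, Ext p R (m k) (m (k + 1))) (c0 : ℕ → ℕ)
    (h0 : (((m 0)! : ℕ) : ℤ_[p]) ∣ ∑ a ∈ range (m 0), (c0 a : ℤ_[p]) * ((a ! : ℕ) : ℤ_[p])) :
    ∃ c : ℕ → ℕ, (∀ a, a < m 0 → c a = c0 a) ∧ (∀ a, m 0 ≤ a → R a (c a)) ∧
      ∀ k, (((m k)! : ℕ) : ℤ_[p]) ∣ ∑ a ∈ range (m k), (c a : ℤ_[p]) * ((a ! : ℕ) : ℤ_[p]) := by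
  have hstep : ∀ (k : ℕ) (F : ℕ → ℕ),
      (((m k)! : ℕ) : ℤ_[p]) ∣ ∑ a ∈ range (m k), (F a : ℤ_[p]) * ((a ! : ℕ) : ℤ_[p]) →
      ∃ F' : ℕ → ℕ, (∀ a, a < m k → F' a = F a) ∧
        (∀ a, m k ≤ a → a < m (k + 1) → R a (F' a)) ∧
        (((m (k + 1))! : ℕ) : ℤ_[p]) ∣
          ∑ a ∈ range (m (k + 1)), (F' a : ℤ_[p]) * ((a ! : ℕ) : ℤ_[p]) := by
    intro k F hF
    obtain ⟨c, hc, hc'⟩ := hext k _ hF
    refine ⟨fun a => if a < m k then F a else c a, ?_, ?_, ?_⟩
    · intro a ha
      simp only [if_pos ha]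
    · intro a ha1 ha2
      simp only [if_neg (not_lt.mpr ha1)]
      exact hc a ha1 ha2
    · rw [← sum_range_add_sum_Ico _ (hm (Nat.lt_succ_self k)).le]
      have e1 : ∑ a ∈ range (m k), (((if a < m k then F a else c a) : ℕ) : ℤ_[p]) *
          ((a ! : ℕ) : ℤ_[p]) = ∑ a ∈ range (m k), (F a : ℤ_[p]) * ((a ! : ℕ) : ℤ_[p]) := by
        apply sum_congr rfl
        intro a ha
        rw [mem_range] at ha
        rw [if_pos ha]
      have e2 : ∑ a ∈ Ico (m k) (m (k + 1)), (((if a < m k then F a else c a) : ℕ) : ℤ_[p]) *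
          ((a ! : ℕ) : ℤ_[p]) =
          ∑ a ∈ Ico (m k) (m (k + 1)), (c a : ℤ_[p]) * ((a ! : ℕ) : ℤ_[p]) := by
        apply sum_congr rfl
        intro a ha
        rw [mem_Ico] at ha
        rw [if_neg (by omega)]
      rw [e1, e2]
      exact hc'
  choose! g hg1 hg2 hg3 using hstep
  obtain ⟨F, hF0, hFs⟩ : ∃ F : ℕ → ℕ → ℕ, F 0 = c0 ∧ ∀ k, F (k + 1) = g k (F k) :=
    ⟨fun k => Nat.rec c0 (fun k Fk => g k Fk) k, rfl, fun _ => rfl⟩
  have hP : ∀ k, (((m k)! : ℕ) : ℤ_[p]) ∣
      ∑ a ∈ range (m k), ((F k a : ℕ) : ℤ_[p]) * ((a ! : ℕ) : ℤ_[p]) := by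
    intro k
    induction k with
    | zero =>
      rw [hF0]
      exact h0
    | succ k ih =>
      rw [hFs]
      exact hg3 k (F k) ih
  have hstab : ∀ k i a, a < m k → F (k + i) a = F k a := by
    intro k i a ha
    induction i with
    | zero => rfl
    | succ i ih =>
      rw [show k + (i + 1) = (k + i) + 1 by ring, hFs, hg1 (k + i) (F (k + i)) (hP _) a
        (lt_of_lt_of_le ha (hm.monotone (Nat.le_add_right k i))), ih]
  have hlt : ∀ a, a < m (a + 1) := fun a =>
    lt_of_lt_of_le (Nat.lt_succ_self a) (hm.le_apply (x := a + 1))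
  have hc : ∀ k a, a < m k → F (a + 1) a = F k a := by
    intro k a ha
    rcases le_total k (a + 1) with h | h
    · obtain ⟨i, hi⟩ := Nat.exists_eq_add_of_le h
      rw [hi]
      exact hstab k i a ha
    · obtain ⟨i, hi⟩ := Nat.exists_eq_add_of_le h
      rw [hi]
      exact (hstab (a + 1) i a (hlt a)).symm
  refine ⟨fun a => F (a + 1) a, ?_, ?_, ?_⟩
  · intro a ha
    show F (a + 1) a = c0 a
    rw [hc 0 a ha, hF0]
  · intro a ha
    show R a (F (a + 1) a)
    -- find the block of `a`
    have hex : ∃ k, a < m (k + 1) := ⟨a, hlt a⟩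
    classical
    have h1 := Nat.find_spec hex
    have h2 : m (Nat.find hex) ≤ a := by
      rcases Nat.eq_zero_or_pos (Nat.find hex) with h | h
      · rw [h]
        exact ha
      · by_contra hcon
        push Not at hcon
        have := Nat.find_min hex (m := Nat.find hex - 1) (by omega)
        rw [show Nat.find hex - 1 + 1 = Nat.find hex by omega] at this
        exact this hcon
    rw [hc _ a h1, hFs]
    exact hg2 _ _ (hP _) a h2 h1
  · intro k
    have e : ∑ a ∈ range (m k), (((fun a => F (a + 1) a) a : ℕ) : ℤ_[p]) * ((a ! : ℕ) : ℤ_[p]) =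
        ∑ a ∈ range (m k), ((F k a : ℕ) : ℤ_[p]) * ((a ! : ℕ) : ℤ_[p]) := by
      apply sum_congr rfl
      intro a ha
      rw [mem_range] at ha
      show ((F (a + 1) a : ℕ) : ℤ_[p]) * _ = _
      rw [hc k a ha]
    rw [e]
    exact hP k

theorem main (p : ℕ) (hp : p.Prime) :
    ∃ c : ℕ → ℕ, c 0 = 0 ∧ {a | c a ≠ 0}.Infinite ∧
      Tendsto (fun n => padicValNat p (∑ a ∈ range n, c a * a !)) atTop atTop ∧
      (∀ a, Q p a (c a)) ∧ ∀ a, p ^ 3 ≤ a → Q' p a (c a) := by
  have hfact : Fact p.Prime := ⟨hp⟩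
  have hp2 := hp.two_le
  have hpsq : 2 ^ 3 ≤ p ^ 3 := Nat.pow_le_pow_left hp2 3
  obtain ⟨q, hq⟩ : ∃ q, p ^ 3 = q + 2 := ⟨p ^ 3 - 2, by omega⟩
  have hm : StrictMono (fun k => p ^ (k + 3)) := by
    intro a b hab
    exact Nat.pow_lt_pow_right (by omega) (by omega)
  have h0 : ((((fun k => p ^ (k + 3)) 0)! : ℕ) : ℤ_[p]) ∣
      ∑ a ∈ range ((fun k => p ^ (k + 3)) 0),
        (((fun a => if a < q then 0 else 1) a : ℕ) : ℤ_[p]) * ((a ! : ℕ) : ℤ_[p]) := by
    show (((p ^ 3)! : ℕ) : ℤ_[p]) ∣ ∑ a ∈ range (p ^ 3),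
        (((fun a => if a < q then 0 else 1) a : ℕ) : ℤ_[p]) * ((a ! : ℕ) : ℤ_[p])
    rw [hq, sum_range_succ, sum_range_succ]
    have e1 : ∑ a ∈ range q, (((fun a => if a < q then 0 else 1) a : ℕ) : ℤ_[p]) *
        ((a ! : ℕ) : ℤ_[p]) = 0 := by
      apply sum_eq_zero
      intro a ha
      rw [mem_range] at ha
      simp only [if_pos ha, Nat.cast_zero, zero_mul]
    rw [e1]
    simp only [lt_irrefl, if_false, Nat.cast_one, one_mul, zero_add]
    rw [if_neg (by omega)]
    have hu : ((q + 1 : ℕ) : ℤ_[p]) ∣ 1 := by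
      apply cast_dvd_of_pow_dvd (Nat.succ_ne_zero q)
      have : ¬ p ∣ q + 1 := by
        intro h
        have h1 : p ∣ q + 2 := by
          rw [← hq]
          exact dvd_pow_self p (by omega)
        have h2 := Nat.dvd_sub h1 h
        rw [show q + 2 - (q + 1) = 1 by omega] at h2
        have := Nat.le_of_dvd one_pos h2
        omega
      rw [val_eq_zero this, pow_zero]
    obtain ⟨u, hu⟩ := hu
    refine ⟨u, ?_⟩
    have f1 : (q + 1)! = (q + 1) * q ! := Nat.factorial_succ q
    have f2 : (q + 2)! = (q + 2) * ((q + 1) * q !) := by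
      rw [← f1]
      exact Nat.factorial_succ (q + 1)
    rw [f2, f1]
    push_cast at hu ⊢
    linear_combination ((q : ℤ_[p]) + 2) * (q ! : ℤ_[p]) * hu
  obtain ⟨c, hc1, hc2, hc3⟩ := assemble (Q' p) (fun k => p ^ (k + 3)) hm
    (fun k => ext_all (k + 3) (by omega) (p ^ (k + 1 + 3)) (dvd_pow_self p (by omega))
      (Nat.pow_le_pow_right (by omega) (by omega))) _ h0
  have hc1' : ∀ a, a < p ^ 3 → c a = if a < q then 0 else 1 := hc1
  have hc2' : ∀ a, p ^ 3 ≤ a → Q' p a (c a) := hc2
  -- divisibility of all late partial sums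
  have hdiv : ∀ K n, p ^ (K + 3) ≤ n → p ^ K ∣ ∑ a ∈ range n, c a * a ! := by
    intro K n hn
    have hK : p ^ K ∣ (p ^ (K + 3))! := by
      apply Nat.dvd_factorial (pow_pos (by omega) _)
      exact Nat.pow_le_pow_right (by omega) (by omega)
    have hK' : (p : ℤ_[p]) ^ K ∣ (((p ^ (K + 3))! : ℕ) : ℤ_[p]) := pow_dvd_cast_of_dvd hK
    have h1 : (p : ℤ_[p]) ^ K ∣ ∑ a ∈ range n, (c a : ℤ_[p]) * ((a ! : ℕ) : ℤ_[p]) := by
      rw [← sum_range_add_sum_Ico _ hn]
      apply dvd_add (hK'.trans (hc3 K))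
      apply dvd_sum
      intro a ha
      rw [mem_Ico] at ha
      apply Dvd.dvd.mul_left
      apply pow_dvd_cast_of_dvd
      exact hK.trans (Nat.factorial_dvd_factorial ha.1)
    have h2 : (p : ℤ_[p]) ^ K ∣ (((∑ a ∈ range n, c a * a ! : ℕ) : ℤ) : ℤ_[p]) := by
      push_cast
      exact_mod_cast h1
    rw [PadicInt.pow_p_dvd_int_iff] at h2
    exact_mod_cast h2
  have hpos : ∀ n, p ^ 3 ≤ n → 0 < ∑ a ∈ range n, c a * a ! := by
    intro n hn
    apply sum_pos' (fun _ _ => Nat.zero_le _)
    refine ⟨q, ?_, ?_⟩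
    · rw [mem_range]
      omega
    · rw [hc1' q (by omega), if_neg (lt_irrefl q), one_mul]
      exact Nat.factorial_pos q
  refine ⟨c, ?_, ?_, ?_, ?_, hc2'⟩
  · rw [hc1' 0 (by omega), if_pos (by omega)]
  · intro hfin
    obtain ⟨B, hB⟩ := hfin.bddAbove
    have hconst : ∀ n, B + 1 ≤ n → ∑ a ∈ range n, c a * a ! = ∑ a ∈ range (B + 1), c a * a ! := by
      intro n hn
      rw [← sum_range_add_sum_Ico _ hn]
      have : ∑ a ∈ Ico (B + 1) n, c a * a ! = 0 := by
        apply sum_eq_zero
        intro a ha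
        rw [mem_Ico] at ha
        have : c a = 0 := by
          by_contra h
          have := hB h
          omega
        rw [this, zero_mul]
      rw [this, add_zero]
    set T := ∑ a ∈ range (B + 1), c a * a ! with hT
    have hTpos : 0 < T := by
      have := hpos (p ^ 3 + B + 1) (by omega)
      rwa [hconst _ (by omega)] at this
    have h1 := hdiv T (p ^ (T + 3) + B + 1) (by omega)
    rw [hconst _ (by omega)] at h1
    have h2 := Nat.le_of_dvd hTpos h1
    have h3 : T < p ^ T := Nat.lt_pow_self (by omega)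
    omega
  · rw [tendsto_atTop]
    intro K
    filter_upwards [eventually_ge_atTop (p ^ (K + 3))] with n hn
    have h1 : p ^ 3 ≤ n := (Nat.pow_le_pow_right (by omega) (by omega)).trans hn
    exact (padicValNat_dvd_iff_le (hpos n h1).ne').mp (hdiv K n hn)
  · intro a
    rcases Nat.lt_or_ge a (p ^ 3) with h | h
    · left
      rw [hc1' a h]
      split_ifs <;> omega
    · exact (hc2' a h).1

end Pool.Agent.EGF48
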