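import Pool.Agent.EGF48.Basic

/-!
# Sums of factorials: passing a multiple of `p` that is not a multiple of `p ^ 2`
-/

set_option autoImplicit false

namespace Pool.Agent.EGF48

open Finset Nat
open scoped Pointwise

/-- all sums of sub-families of `f 0, …, f (n-1)` -/
def sums (p : ℕ) (f : ℕ → ZMod p) : ℕ → Finset (ZMod p)
  | 0 => {0}
  | n + 1 => sums p f n + {0, f n}

lemma sums_nonempty (p : ℕ) (f : ℕ → ZMod p) (n : ℕ) : (sums p f n).Nonempty := by
  induction n with
  | zero => exact singleton_nonempty 0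
  | succ n ih => exact ih.add (insert_nonempty _ _)

lemma sums_card (p : ℕ) (hp : p.Prime) (f : ℕ → ZMod p) (n : ℕ) (hf : ∀ i < n, f i ≠ 0) :
    min p (n + 1) ≤ (sums p f n).card := by
  induction n with
  | zero =>
    have := hp.pos
    simp [sums]
  | succ n ih =>
    have h1 := ih (fun i hi => hf i (by omega))
    have h2 := ZMod.cauchy_davenport hp (sums_nonempty p f n)
      (insert_nonempty (0 : ZMod p) {f n})
    have h3 : (({0, f n} : Finset (ZMod p))).card = 2 := by
      rw [card_pair]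
      exact (hf n (by omega)).symm
    rw [h3] at h2
    show min p (n + 1 + 1) ≤ (sums p f n + {0, f n}).card
    omega

lemma sums_mem (p : ℕ) (f : ℕ → ZMod p) (n : ℕ) (x : ZMod p) (hx : x ∈ sums p f n) :
    ∃ c : ℕ → ℕ, (∀ i, c i ≤ 1) ∧ x = ∑ i ∈ range n, (c i : ZMod p) * f i := by
  induction n generalizing x with
  | zero =>
    refine ⟨fun _ => 0, fun _ => Nat.zero_le _, ?_⟩
    simpa [sums] using hx
  | succ n ih =>
    have hx' : x ∈ sums p f n + {0, f n} := hx
    rw [mem_add] at hx'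
    obtain ⟨y, hy, z, hz, rfl⟩ := hx'
    obtain ⟨c, hc, hy'⟩ := ih y hy
    rw [mem_insert, mem_singleton] at hz
    rcases hz with rfl | rfl
    · refine ⟨fun i => if i = n then 0 else c i, ?_, ?_⟩
      · intro i
        show (if i = n then 0 else c i) ≤ 1
        split_ifs
        · omega
        · exact hc i
      · rw [sum_range_succ, hy']
        simp only [if_true, Nat.cast_zero, zero_mul]
        congr 1
        apply sum_congr rfl
        intro i hi
        rw [mem_range] at hi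
        rw [if_neg (by omega)]
    · refine ⟨fun i => if i = n then 1 else c i, ?_, ?_⟩
      · intro i
        show (if i = n then 1 else c i) ≤ 1
        split_ifs
        · omega
        · exact hc i
      · rw [sum_range_succ, hy']
        simp only [if_true, Nat.cast_one, one_mul]
        congr 1
        apply sum_congr rfl
        intro i hi
        rw [mem_range] at hi
        rw [if_neg (by omega)]

lemma sums_cover (p : ℕ) [hp : Fact p.Prime] (f : ℕ → ZMod p) (hf : ∀ i < p - 1, f i ≠ 0)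
    (x : ZMod p) :
    ∃ c : ℕ → ℕ, (∀ i, c i ≤ 1) ∧ x = ∑ i ∈ range (p - 1), (c i : ZMod p) * f i := by
  apply sums_mem
  have h1 := sums_card p hp.out f (p - 1) hf
  have hp0 := hp.out.pos
  have h2 : (sums p f (p - 1)) = univ := by
    rw [← card_eq_iff_eq_univ, ZMod.card]
    have h3 := card_le_univ (sums p f (p - 1))
    rw [ZMod.card] at h3
    omega
  rw [h2]
  exact mem_univ _

theorem ext_one {p : ℕ} [hp : Fact p.Prime] (n : ℕ) (ht : padicValNat p (n + 1) = 1) :
    Ext p (fun a m => m ≤ 1 ∧ (p ∣ a → m = 1)) (n + 1 - p) (n + 1) := by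
  have hp1 := hp.out.one_lt
  have hpN : p ∣ n + 1 := by
    have : p ^ padicValNat p (n + 1) ∣ n + 1 := pow_padicValNat_dvd
    rwa [ht, pow_one] at this
  have hNle : p ≤ n + 1 := Nat.le_of_dvd (Nat.succ_pos n) hpN
  obtain ⟨M, hM⟩ : ∃ M, n + 1 = M + p := ⟨n + 1 - p, by omega⟩
  have hpM : p ∣ M := by
    have := Nat.dvd_sub hpN (dvd_refl p)
    rwa [hM, Nat.add_sub_cancel] at this
  rw [hM, Nat.add_sub_cancel]
  rintro S ⟨z, rfl⟩
  have hf : ∀ i < p, (((M + 1).ascFactorial i : ℕ) : ZMod p) ≠ 0 := by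
    intro i hi
    rw [Nat.ascFactorial_eq_prod_range, Nat.cast_prod]
    apply prod_ne_zero_iff.mpr
    intro j hj
    rw [mem_range] at hj
    rw [Ne, ZMod.natCast_eq_zero_iff]
    intro h
    have h1 : p ∣ 1 + j := by
      have e : M + 1 + j = M + (1 + j) := by ring
      rw [e] at h
      exact (Nat.dvd_add_right hpM).mp h
    exact absurd (Nat.le_of_dvd (by omega) h1) (by omega)
  obtain ⟨c0, hc0, hs0⟩ := sums_cover p
    (fun i => (((M + 1).ascFactorial (i + 1) : ℕ) : ZMod p)) (fun i hi => hf (i + 1) (by omega))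
    (-(PadicInt.toZMod z) - 1)
  -- the first element of the block is always used
  obtain ⟨c, hc, hc1, hs⟩ : ∃ c : ℕ → ℕ, (∀ i, c i ≤ 1) ∧ c 0 = 1 ∧
      -(PadicInt.toZMod z) =
        ∑ i ∈ range p, (c i : ZMod p) * (((M + 1).ascFactorial i : ℕ) : ZMod p) := by
    refine ⟨fun i => if i = 0 then 1 else c0 (i - 1), ?_, ?_, ?_⟩
    · intro i
      show (if i = 0 then 1 else c0 (i - 1)) ≤ 1
      split_ifs
      · omega
      · exact hc0 _
    · simp
    · obtain ⟨q, hq⟩ : ∃ q, p = q + 1 := ⟨p - 1, by omega⟩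
      have h1 : ∑ i ∈ range p, (((if i = 0 then 1 else c0 (i - 1)) : ℕ) : ZMod p) *
          (((M + 1).ascFactorial i : ℕ) : ZMod p) =
          ∑ i ∈ range (p - 1), (c0 i : ZMod p) *
            (((M + 1).ascFactorial (i + 1) : ℕ) : ZMod p) + 1 := by
        have h2 : range p = range ((p - 1) + 1) := by rw [Nat.sub_add_cancel hp1.le]
        rw [h2, sum_range_succ']
        congr 1
        simp
      show -(PadicInt.toZMod z) = ∑ i ∈ range p, (((if i = 0 then 1 else c0 (i - 1)) : ℕ) : ZMod p) *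
          (((M + 1).ascFactorial i : ℕ) : ZMod p)
      rw [h1, ← hs0]
      ring
  refine ⟨fun a => c (a - M), ?_, ?_⟩
  · intro a ha1 ha2
    refine ⟨hc _, ?_⟩
    intro hpa
    have h1 : p ∣ a - M := Nat.dvd_sub hpa hpM
    have h2 : a - M = 0 := by
      by_contra h3
      exact absurd (Nat.le_of_dvd (by omega) h1) (by omega)
    show c (a - M) = 1
    rw [h2]
    exact hc1
  rw [sum_Ico_eq_sum_range, Nat.add_sub_cancel_left]
  have e1 : ∑ i ∈ range p, (c (M + i - M) : ℤ_[p]) * (((M + i)! : ℕ) : ℤ_[p]) =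
      ((M ! : ℕ) : ℤ_[p]) * ∑ i ∈ range p, (c i : ℤ_[p]) * (((M + 1).ascFactorial i : ℕ) : ℤ_[p]) := by
    rw [mul_sum]
    apply sum_congr rfl
    intro i _
    rw [Nat.add_sub_cancel_left, ← Nat.factorial_mul_ascFactorial]
    push_cast
    ring
  rw [e1, ← mul_add]
  have h2 : PadicInt.toZMod (z + ∑ i ∈ range p, (c i : ℤ_[p]) *
      (((M + 1).ascFactorial i : ℕ) : ℤ_[p])) = 0 := by
    rw [map_add, map_sum]
    have h3 : ∑ i ∈ range p, PadicInt.toZMod ((c i : ℤ_[p]) *
        (((M + 1).ascFactorial i : ℕ) : ℤ_[p])) =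
        ∑ i ∈ range p, (c i : ZMod p) * (((M + 1).ascFactorial i : ℕ) : ZMod p) := by
      apply sum_congr rfl
      intro i _
      rw [map_mul, map_natCast, map_natCast]
    rw [h3, ← hs]
    ring
  have h4 : z + ∑ i ∈ range p, (c i : ℤ_[p]) * (((M + 1).ascFactorial i : ℕ) : ℤ_[p]) ∈
      RingHom.ker (PadicInt.toZMod : ℤ_[p] →+* ZMod p) := h2
  rw [PadicInt.ker_toZMod, PadicInt.maximalIdeal_eq_span_p, Ideal.mem_span_singleton] at h4
  have h5 : ((n + 1 : ℕ) : ℤ_[p]) ∣
      z + ∑ i ∈ range p, (c i : ℤ_[p]) * (((M + 1).ascFactorial i : ℕ) : ℤ_[p]) := by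
    apply cast_dvd_of_pow_dvd (Nat.succ_ne_zero n)
    rw [ht, pow_one]
    exact h4
  have hu : IsUnit ((((M + 1).ascFactorial (p - 1) : ℕ)) : ℤ_[p]) := by
    have h1 : IsUnit (PadicInt.toZMod ((((M + 1).ascFactorial (p - 1) : ℕ)) : ℤ_[p])) := by
      rw [map_natCast]
      exact (hf (p - 1) (by omega)).isUnit
    exact (isUnit_map_iff (PadicInt.toZMod : ℤ_[p] →+* ZMod p) _).mp h1
  have e2 : (((M + p)! : ℕ) : ℤ_[p]) = ((M ! : ℕ) : ℤ_[p]) *
      (((((M + 1).ascFactorial (p - 1) : ℕ)) : ℤ_[p]) * ((n + 1 : ℕ) : ℤ_[p])) := by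
    rw [← hM, Nat.factorial_succ, show n = M + (p - 1) by omega,
      ← Nat.factorial_mul_ascFactorial]
    push_cast
    ring
  rw [e2]
  exact mul_dvd_mul_left _ ((hu.mul_left_dvd).mpr h5)

end Pool.Agent.EGF48
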