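import Pool.Agent.EGF48.Window
import Pool.Agent.EGF48.Simple

/-!
# Sums of factorials: nested windows
-/

set_option autoImplicit false

namespace Pool.Agent.EGF48

open Finset Nat

/-- between two multiples of `p` nothing has to be added -/
lemma ext_zero {p : ℕ} [hp : Fact p.Prime] (K i : ℕ) (hK : p ∣ K) (hi : i < p) :
    Ext p (fun _ m => m = 0) K (K + i) := by
  refine (ext_digits (p := p) K i).mono ?_
  intro a m h1 h2 h3
  have h4 : ¬ p ∣ a + 1 := by
    intro h
    have h5 := Nat.dvd_sub h hK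
    exact absurd (Nat.le_of_dvd (by omega) h5) (by omega)
  rw [val_eq_zero h4, pow_zero] at h3
  omega

/-- the divisibility behind `ext_zero` -/
lemma dvd_of_ext_zero {p : ℕ} [hp : Fact p.Prime] (K i : ℕ) (hK : p ∣ K) (hi : i < p)
    (S : ℤ_[p]) (hS : ((K ! : ℕ) : ℤ_[p]) ∣ S) : (((K + i)! : ℕ) : ℤ_[p]) ∣ S := by
  obtain ⟨c, hc, hc'⟩ := ext_zero (p := p) K i hK hi S hS
  have : ∑ a ∈ Ico K (K + i), (c a : ℤ_[p]) * ((a ! : ℕ) : ℤ_[p]) = 0 := by
    apply sum_eq_zero
    intro a ha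
    rw [mem_Ico] at ha
    rw [hc a ha.1 ha.2, Nat.cast_zero, zero_mul]
  rwa [this, add_zero] at hc'

lemma le_factorial_pred (q : ℕ) (hq : 4 ≤ q) : q ≤ (q - 1)! := by
  obtain ⟨k, rfl⟩ : ∃ k, q = k + 4 := ⟨q - 4, by omega⟩
  have h1 : (k + 4 - 1)! = (k + 3) * ((k + 2) * (k + 1)!) := by
    rw [show k + 4 - 1 = k + 3 by omega, Nat.factorial_succ, Nat.factorial_succ]
  have h2 := Nat.factorial_pos (k + 1)
  have h3 : (k + 2) * 1 ≤ (k + 2) * (k + 1)! := Nat.mul_le_mul_left _ h2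
  have h4 : (k + 3) * ((k + 2) * 1) ≤ (k + 3) * ((k + 2) * (k + 1)!) := Nat.mul_le_mul_left _ h3
  rw [h1]
  nlinarith

lemma sq_le_factorial_pred (q : ℕ) (hq : 8 ≤ q) : q * q ≤ (q - 1)! := by
  obtain ⟨k, rfl⟩ : ∃ k, q = k + 8 := ⟨q - 8, by omega⟩
  have h1 : (k + 8 - 1)! = (k + 7) * ((k + 6) * ((k + 5) * (k + 4)!)) := by
    rw [show k + 8 - 1 = k + 7 by omega, Nat.factorial_succ, Nat.factorial_succ,
      Nat.factorial_succ]
  have h2 := Nat.factorial_pos (k + 4)
  have h3 : (k + 5) * 1 ≤ (k + 5) * (k + 4)! := Nat.mul_le_mul_left _ h2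
  have h4 : (k + 6) * ((k + 5) * 1) ≤ (k + 6) * ((k + 5) * (k + 4)!) := Nat.mul_le_mul_left _ h3
  have h5 : (k + 7) * ((k + 6) * ((k + 5) * 1)) ≤ (k + 7) * ((k + 6) * ((k + 5) * (k + 4)!)) :=
    Nat.mul_le_mul_left _ h4
  rw [h1]
  refine le_trans ?_ h5
  nlinarith [Nat.zero_le (k * k * k), Nat.zero_le (k * k)]

/-- the radius of the first round -/
lemma exists_radius (p t : ℕ) (hp : 2 ≤ p) (ht : 2 ≤ t) :
    ∃ R : ℕ, 3 ≤ R ∧ p ^ t ≤ R ! ∧ (R - 1)! < p ^ t ∧ R + 1 ≤ p ^ t ∧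
      (4 ≤ t → R + 1 ≤ p ^ (t - 1)) := by
  have h4 : 4 ≤ p ^ t := by
    calc 4 = 2 ^ 2 := rfl
      _ ≤ p ^ 2 := Nat.pow_le_pow_left hp 2
      _ ≤ p ^ t := Nat.pow_le_pow_right (by omega) ht
  have h5 := le_factorial_pred (p ^ t) h4
  have hex : ∃ R, p ^ t ≤ R ! := ⟨_, h5⟩
  classical
  have hspec := Nat.find_spec hex
  have hR1 : 3 ≤ Nat.find hex := by
    by_contra hcon
    have h6 : (Nat.find hex)! ≤ 2 ! := Nat.factorial_le (by omega)
    have h7 : 2 ! = 2 := rfl
    omega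
  refine ⟨Nat.find hex, hR1, hspec, ?_, ?_, ?_⟩
  · by_contra hcon
    push Not at hcon
    exact Nat.find_min hex (m := Nat.find hex - 1) (by omega) hcon
  · have := Nat.find_min' hex h5
    omega
  · intro ht4
    obtain ⟨s, rfl⟩ : ∃ s, t = s + 1 := ⟨t - 1, by omega⟩
    rw [Nat.add_sub_cancel]
    have h8 : 8 ≤ p ^ s := by
      calc 8 = 2 ^ 3 := rfl
        _ ≤ p ^ 3 := Nat.pow_le_pow_left hp 3
        _ ≤ p ^ s := Nat.pow_le_pow_right (by omega) (by omega)
    have h9 : p ^ (s + 1) ≤ (p ^ s - 1)! := by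
      refine le_trans ?_ (sq_le_factorial_pred _ h8)
      rw [pow_succ]
      exact Nat.mul_le_mul_left _ (Nat.le_self_pow (by omega) p)
    have := Nat.find_min' hex h9
    omega

/-- the multiplicities of the inner chain -/
def D (p i m : ℕ) : Prop := ∀ l, 1 ≤ l → p ^ (i - 1) ≤ l ! → m < (l + 1) ^ 2

lemma D_of_le_one {p i m : ℕ} (h : m ≤ 1) : D p i m := by
  intro l hl _
  have : (1 + 1) ^ 2 ≤ (l + 1) ^ 2 := Nat.pow_le_pow_left (by omega) 2
  omega

/-- the inner chain, between `K` and `K + p ^ i`, where `p ^ i` divides `K` -/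
theorem ext_inner {p : ℕ} [hp : Fact p.Prime] (K i : ℕ) (hi : 1 ≤ i) (hK : p ^ i ∣ K)
    (hK0 : K ≠ 0) :
    ∀ N : ℕ, p ∣ N → K ≤ N → N < K + p ^ i → Ext p (fun _ m => D p i m) K N := by
  have hp2 := hp.out.two_le
  have hpK : p ∣ K := (dvd_pow_self p (by omega)).trans hK
  have hKle : p ^ i ≤ K := Nat.le_of_dvd (Nat.pos_of_ne_zero hK0) hK
  intro N
  induction N using Nat.strong_induction_on with
  | _ N ih =>
    intro hpN hle hlt
    rcases Nat.eq_or_lt_of_le hle with h | h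
    · rw [← h]
      exact Ext.refl _ _
    · obtain ⟨n, rfl⟩ : ∃ n, N = n + 1 := ⟨N - 1, by omega⟩
      have ht1 : 1 ≤ padicValNat p (n + 1) := one_le_padicValNat_of_dvd (Nat.succ_ne_zero n) hpN
      have hval : p ^ padicValNat p (n + 1) ∣ n + 1 := pow_padicValNat_dvd
      rcases Nat.eq_or_lt_of_le ht1 with h1 | h1
      · have hM : K ≤ n + 1 - p := by
          have := Nat.le_of_dvd (by omega) (Nat.dvd_sub hpN hpK)
          omega
        exact (ih (n + 1 - p) (by omega) (Nat.dvd_sub hpN (dvd_refl p)) hM (by omega)).trans hM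
          (by omega) ((ext_one n h1.symm).mono (fun a m _ _ h => D_of_le_one h.1))
      · obtain ⟨R, hR0, hR, hR', hRt, _⟩ := exists_radius p (padicValNat p (n + 1)) hp2 h1
        have hti : padicValNat p (n + 1) < i := by
          by_contra hcon
          push Not at hcon
          have h2 : p ^ i ∣ n + 1 - K := Nat.dvd_sub ((pow_dvd_pow p hcon).trans hval) hK
          have h3 := Nat.le_of_dvd (by omega) h2
          omega
        have hM : K ≤ n - R := by
          have h2 : p ^ padicValNat p (n + 1) ∣ n + 1 - K :=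
            Nat.dvd_sub hval ((pow_dvd_pow p hti.le).trans hK)
          have h3 := Nat.le_of_dvd (by omega) h2
          omega
        have hdm : p * ((n - R) / p) + (n - R) % p = n - R := Nat.div_add_mod _ _
        have hmod : (n - R) % p < p := Nat.mod_lt _ (by omega)
        have hKj : K ≤ p * ((n - R) / p) := by
          obtain ⟨k, hk⟩ := hpK
          have h5 : k ≤ (n - R) / p := by
            rw [Nat.le_div_iff_mul_le (by omega), mul_comm, ← hk]
            exact hM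
          calc K = p * k := hk
            _ ≤ _ := Nat.mul_le_mul_left _ h5
        have hA : Ext p (fun _ m => D p i m) K (p * ((n - R) / p)) :=
          ih _ (by omega) (dvd_mul_right _ _) hKj (by omega)
        have hB : Ext p (fun _ m => D p i m) (p * ((n - R) / p)) (n - R) := by
          have := (ext_zero (p := p) (p * ((n - R) / p)) ((n - R) % p) (dvd_mul_right _ _) hmod)
          rw [hdm] at this
          exact this.mono (fun a m _ _ h => D_of_le_one (by omega))
        refine (hA.trans hKj (by omega) hB).trans hM (by omega)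
          ((ext_two n _ R rfl h1 hR hR' hRt (by omega)).mono ?_)
        rintro a m _ ha2 (h | ⟨h2, h3⟩)
        · exact D_of_le_one h
        · intro l hl hl'
          have h4 : (n + 1 - a - 2)! < l ! := by
            refine lt_of_lt_of_le h2 (le_trans ?_ hl')
            exact Nat.pow_le_pow_right (by omega) (by omega)
          have h5 : n + 1 - a - 2 < l := by
            by_contra hcon
            push Not at hcon
            have := Nat.factorial_le hcon
            omega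
          have h6 : (n + 1 - a) ^ 2 ≤ (l + 1) ^ 2 := Nat.pow_le_pow_left (by omega) 2
          omega

/-- the first round in terms of factorials -/
lemma first_round' {p : ℕ} [hp : Fact p.Prime] (n t R : ℕ) (ht : padicValNat p (n + 1) = t)
    (hR : p ^ t ≤ R !) (hRn : R ≤ n) (S : ℤ_[p]) (hS : (((n - R)! : ℕ) : ℤ_[p]) ∣ S) :
    ∃ (e : ℕ → ℕ) (W : ℤ_[p]), e 0 = 0 ∧ (∀ r, 1 ≤ r → r ≤ R → e r < r) ∧
      S + ∑ a ∈ Ico (n - R) (n + 1), (e (n - a) : ℤ_[p]) * ((a ! : ℕ) : ℤ_[p]) =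
      (((n - R)! : ℕ) : ℤ_[p]) * (((n + 1 : ℕ) : ℤ_[p]) * W) := by
  obtain ⟨x, rfl⟩ := hS
  obtain ⟨e, he0, he, W, hW⟩ := first_round (p := p) (n + 1) t R (Nat.succ_ne_zero n) ht hR x
  refine ⟨e, W, he0, he, ?_⟩
  rw [← hW, mul_add]
  congr 1
  rw [sum_reindex n R hRn, mul_sum]
  apply sum_congr rfl
  intro r hr
  rw [mem_range] at hr
  have h1 := factorial_eq n r R (by omega) (by omega)
  have h2 : (((n - r)! : ℕ) : ℤ_[p]) =
      (((n - R)! : ℕ) : ℤ_[p]) * ((P ((n + 1 : ℕ) : ℤ) R r : ℤ) : ℤ_[p]) := by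
    have h3 : (((((n - r)! : ℕ) : ℤ)) : ℤ_[p]) =
        (((((n - R)! : ℕ) : ℤ) * P ((n + 1 : ℕ) : ℤ) R r : ℤ) : ℤ_[p]) := by
      rw [h1]
    push_cast at h3 ⊢
    exact h3
  rw [show n - (n - r) = r by omega, h2]
  ring

/-- passing `n + 1` when the radius is smaller than `p` -/
theorem ext_small {p : ℕ} [hp : Fact p.Prime] (n t R : ℕ)
    (ht : padicValNat p (n + 1) = t) (ht2 : 2 ≤ t) (hR : p ^ t ≤ R !)
    (hR' : (R - 1)! < p ^ t) (hRp : R < p) :
    Ext p (fun a m => m ≤ 1 ∨ ((n + 1 - a - 2)! < p ^ t ∧ m < n + 1 - a))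
      (n + 1 - p) (n + 1) := by
  have hp2 := hp.out.two_le
  have hNt : p ^ t ∣ n + 1 := by
    rw [← ht]
    exact pow_padicValNat_dvd
  have hpN : p ∣ n + 1 := (dvd_pow_self p (by omega)).trans hNt
  have hNle : p ≤ n + 1 := Nat.le_of_dvd (Nat.succ_pos n) hpN
  have hpM : p ∣ n + 1 - p := Nat.dvd_sub hpN (dvd_refl p)
  intro S hS
  have hS' : (((n - R)! : ℕ) : ℤ_[p]) ∣ S := by
    have := dvd_of_ext_zero (n + 1 - p) (p - 1 - R) hpM (by omega) S hS
    rwa [show n + 1 - p + (p - 1 - R) = n - R by omega] at this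
  obtain ⟨e, W, he0, he, hW⟩ := first_round' (p := p) n t R ht hR (by omega) S hS'
  refine ⟨fun a => if a < n - R then 0 else e (n - a), ?_, ?_⟩
  · intro a ha1 ha2
    show (if a < n - R then 0 else e (n - a)) ≤ 1 ∨ ((n + 1 - a - 2)! < p ^ t ∧
      (if a < n - R then 0 else e (n - a)) < n + 1 - a)
    split_ifs with h
    · left
      omega
    · rcases Nat.eq_or_lt_of_le (Nat.lt_succ_iff.mp ha2) with h1 | h1
      · left
        rw [h1, Nat.sub_self, he0]
        omega
      · right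
        have := he (n - a) (by omega) (by omega)
        refine ⟨lt_of_le_of_lt (Nat.factorial_le ?_) hR', ?_⟩
        · omega
        · omega
  · have k1 : ∑ a ∈ Ico (n + 1 - p) (n + 1), ((if a < n - R then 0 else e (n - a) : ℕ) : ℤ_[p]) *
        ((a ! : ℕ) : ℤ_[p]) =
        ∑ a ∈ Ico (n - R) (n + 1), (e (n - a) : ℤ_[p]) * ((a ! : ℕ) : ℤ_[p]) := by
      rw [← sum_Ico_consecutive _ (show n + 1 - p ≤ n - R by omega) (show n - R ≤ n + 1 by omega)]
      have k2 : ∑ a ∈ Ico (n + 1 - p) (n - R),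
          ((if a < n - R then 0 else e (n - a) : ℕ) : ℤ_[p]) * ((a ! : ℕ) : ℤ_[p]) = 0 := by
        apply sum_eq_zero
        intro a ha
        rw [mem_Ico] at ha
        rw [if_pos ha.2, Nat.cast_zero, zero_mul]
      rw [k2, zero_add]
      apply sum_congr rfl
      intro a ha
      rw [mem_Ico] at ha
      rw [if_neg (by omega)]
    show _ ∣ S + ∑ a ∈ Ico (n + 1 - p) (n + 1),
      ((if a < n - R then 0 else e (n - a) : ℕ) : ℤ_[p]) * ((a ! : ℕ) : ℤ_[p])
    rw [k1, hW]
    have h1 : (((n + 1 - p)! : ℕ) : ℤ_[p]) ∣ (((n - R)! : ℕ) : ℤ_[p]) * W := by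
      apply Dvd.dvd.mul_right
      exact_mod_cast (Nat.cast_dvd_cast (α := ℤ_[p])
        (Nat.factorial_dvd_factorial (show n + 1 - p ≤ n - R by omega)))
    have h2 := dvd_of_ext_zero (n + 1 - p) (p - 1) hpM (by omega) _ h1
    rw [show n + 1 - p + (p - 1) = n by omega] at h2
    obtain ⟨y, hy⟩ := h2
    refine ⟨y, ?_⟩
    rw [Nat.factorial_succ]
    push_cast at hy ⊢
    linear_combination ((n : ℤ_[p]) + 1) * hy

/-- passing `n + 1` in general -/
theorem ext_big {p : ℕ} [hp : Fact p.Prime] (n t R i : ℕ)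
    (ht : padicValNat p (n + 1) = t) (hR : p ^ t ≤ R !) (hi1 : 1 ≤ i)
    (hi : R + 1 ≤ p ^ i) (hit : i ≤ t) (hK : p ^ i < n + 1) :
    Ext p (fun a m => ∀ l, 1 ≤ l → p ^ (i - 1) ≤ l ! → m < (n + 2 - a) * (l + 1) ^ 2)
      (n + 1 - p ^ i) (n + 1) := by
  have hp2 := hp.out.two_le
  have hNt : p ^ t ∣ n + 1 := by
    rw [← ht]
    exact pow_padicValNat_dvd
  have hpN : p ∣ n + 1 := (dvd_pow_self p (by omega)).trans hNt
  have hpi : p ≤ p ^ i := Nat.le_self_pow (by omega) p
  set K := n + 1 - p ^ i with hKdef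
  have hKi : p ^ i ∣ K := Nat.dvd_sub ((pow_dvd_pow p hit).trans hNt) (dvd_refl _)
  have hpK : p ∣ K := (dvd_pow_self p (by omega)).trans hKi
  have hK0 : K ≠ 0 := by omega
  have hKM : K ≤ n - R := by omega
  -- from `K` to `n - R`
  have hE1 : Ext p (fun _ m => D p i m) K (n - R) := by
    have hdm : p * ((n - R) / p) + (n - R) % p = n - R := Nat.div_add_mod _ _
    have hmod : (n - R) % p < p := Nat.mod_lt _ (by omega)
    have hKj : K ≤ p * ((n - R) / p) := by
      obtain ⟨k, hk⟩ := hpK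
      have h5 : k ≤ (n - R) / p := by
        rw [Nat.le_div_iff_mul_le (by omega), mul_comm, ← hk]
        exact hKM
      calc K = p * k := hk
        _ ≤ _ := Nat.mul_le_mul_left _ h5
    have hB : Ext p (fun _ m => D p i m) (p * ((n - R) / p)) (n - R) := by
      have := (ext_zero (p := p) (p * ((n - R) / p)) ((n - R) % p) (dvd_mul_right _ _) hmod)
      rw [hdm] at this
      exact this.mono (fun a m _ _ h => D_of_le_one (by omega))
    exact (ext_inner K i hi1 hKi hK0 _ (dvd_mul_right _ _) hKj (by omega)).trans hKj (by omega) hB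
  -- from `K` to `n`
  have hE2 : Ext p (fun _ m => D p i m) K n := by
    have hB : Ext p (fun _ m => D p i m) (n + 1 - p) n := by
      have := (ext_zero (p := p) (n + 1 - p) (p - 1) (Nat.dvd_sub hpN (dvd_refl p)) (by omega))
      rw [show n + 1 - p + (p - 1) = n by omega] at this
      exact this.mono (fun a m _ _ h => D_of_le_one (by omega))
    exact (ext_inner K i hi1 hKi hK0 _ (Nat.dvd_sub hpN (dvd_refl p)) (by omega) (by omega)).trans
      (by omega) (by omega) hB
  intro S hS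
  obtain ⟨e1, he1, hS'⟩ := hE1 S hS
  obtain ⟨e, W, he0, he, hW⟩ := first_round' (p := p) n t R ht hR (by omega) _ hS'
  obtain ⟨d, hd, y, hy⟩ := hE2 ((((n - R)! : ℕ) : ℤ_[p]) * W) (by
    apply Dvd.dvd.mul_right
    exact_mod_cast (Nat.cast_dvd_cast (α := ℤ_[p]) (Nat.factorial_dvd_factorial hKM)))
  set d' : ℕ → ℕ := fun a => if K ≤ a ∧ a < n then d a else 0 with hd'def
  set E : ℕ → ℕ := fun a => if a < n - R then e1 a else e (n - a) with hEdef
  have hd'0 : d' (K - 1) = 0 := by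
    simp only [hd'def]
    rw [if_neg]
    omega
  have hd'D : ∀ a, D p i (d' a) := by
    intro a
    simp only [hd'def]
    split_ifs with h
    · exact hd a h.1 h.2
    · exact D_of_le_one (by omega)
  refine ⟨fun a => E a + (d' (a - 1) + (n - a) * d' a), ?_, ?_⟩
  · intro a ha1 ha2 l hl hl'
    have h1 := hd'D a l hl hl'
    have h2 := hd'D (a - 1) l hl hl'
    have h3 : E a < (n - a) + (l + 1) ^ 2 := by
      simp only [hEdef]
      split_ifs with h
      · have := he1 a ha1 h l hl hl'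
        omega
      · rcases Nat.eq_or_lt_of_le (Nat.lt_succ_iff.mp ha2) with h4 | h4
        · rw [h4, Nat.sub_self, he0]
          positivity
        · have := he (n - a) (by omega) (by omega)
          omega
    have h4 : (n - a) * (d' a + 1) ≤ (n - a) * (l + 1) ^ 2 := Nat.mul_le_mul_left _ h1
    have h5 : (n + 2 - a) * (l + 1) ^ 2 = (n - a) * (l + 1) ^ 2 + 2 * (l + 1) ^ 2 := by
      rw [show n + 2 - a = (n - a) + 2 by omega]
      ring
    have h6 : (n - a) * (d' a + 1) = (n - a) * d' a + (n - a) := by ring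
    show E a + (d' (a - 1) + (n - a) * d' a) < (n + 2 - a) * (l + 1) ^ 2
    omega
  · have k1 : ∑ a ∈ Ico K (n + 1), ((E a + (d' (a - 1) + (n - a) * d' a) : ℕ) : ℤ_[p]) *
        ((a ! : ℕ) : ℤ_[p]) =
        (∑ a ∈ Ico K (n - R), (e1 a : ℤ_[p]) * ((a ! : ℕ) : ℤ_[p]) +
        ∑ a ∈ Ico (n - R) (n + 1), (e (n - a) : ℤ_[p]) * ((a ! : ℕ) : ℤ_[p])) +
        ((n + 1 : ℕ) : ℤ_[p]) * ∑ a ∈ Ico K n, (d a : ℤ_[p]) * ((a ! : ℕ) : ℤ_[p]) := by
      have k2 : ∑ a ∈ Ico K n, (d a : ℤ_[p]) * ((a ! : ℕ) : ℤ_[p]) =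
          ∑ a ∈ Ico K n, (d' a : ℤ_[p]) * ((a ! : ℕ) : ℤ_[p]) := by
        apply sum_congr rfl
        intro a ha
        rw [mem_Ico] at ha
        simp only [hd'def]
        rw [if_pos ha]
      have k3 : ∑ a ∈ Ico K (n - R), (e1 a : ℤ_[p]) * ((a ! : ℕ) : ℤ_[p]) +
          ∑ a ∈ Ico (n - R) (n + 1), (e (n - a) : ℤ_[p]) * ((a ! : ℕ) : ℤ_[p]) =
          ∑ a ∈ Ico K (n + 1), (E a : ℤ_[p]) * ((a ! : ℕ) : ℤ_[p]) := by
        rw [← sum_Ico_consecutive _ hKM (show n - R ≤ n + 1 by omega)]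
        congr 1
        · apply sum_congr rfl
          intro a ha
          rw [mem_Ico] at ha
          simp only [hEdef]
          rw [if_pos ha.2]
        · apply sum_congr rfl
          intro a ha
          rw [mem_Ico] at ha
          simp only [hEdef]
          rw [if_neg (by omega)]
      rw [k2, k3, ← exchange K n (by omega) d' hd'0, ← sum_add_distrib]
      apply sum_congr rfl
      intro a _
      push_cast
      ring
    show _ ∣ S + ∑ a ∈ Ico K (n + 1), ((E a + (d' (a - 1) + (n - a) * d' a) : ℕ) : ℤ_[p]) *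
        ((a ! : ℕ) : ℤ_[p])
    rw [k1, ← add_assoc, ← add_assoc, hW]
    refine ⟨y, ?_⟩
    rw [Nat.factorial_succ]
    push_cast at hy ⊢
    linear_combination ((n : ℤ_[p]) + 1) * hy

end Pool.Agent.EGF48
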