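import Mathlib

/-!
# Sums of factorials: products of consecutive integers and a mixed radix system with
alternating signs
-/

set_option autoImplicit false

namespace Pool.Agent.EGF48

open Finset Nat

/-- The product `(N - (r+1)) ⋯ (N - R)`. -/
def P (N : ℤ) (R r : ℕ) : ℤ := ∏ i ∈ Ico (r + 1) (R + 1), (N - (i : ℤ))

lemma P_top (N : ℤ) (R r : ℕ) (h : r ≤ R) :
    P N (R + 1) r = P N R r * (N - ((R + 1 : ℕ) : ℤ)) := by
  unfold P
  rw [prod_Ico_succ_top (by omega)]

lemma P_self (N : ℤ) (R : ℕ) : P N R R = 1 := by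
  unfold P
  simp

lemma P_sub_dvd (N : ℤ) (R r : ℕ) : N ∣ P N R r - P 0 R r := by
  have h : P N R r ≡ P 0 R r [ZMOD N] := by
    unfold P
    apply Int.ModEq.prod
    intro i _
    have : N ≡ 0 [ZMOD N] := by simp [Int.ModEq]
    exact this.sub_right _
  exact (Int.modEq_iff_dvd.mp h.symm)

theorem radix (g R : ℕ) : ∃ lo : ℤ, ∀ z : ℤ, lo ≤ z → z < lo + g * (R ! : ℤ) →
    ∃ e : ℕ → ℕ, (∀ r, 1 ≤ r → r ≤ R → e r < r) ∧ e 0 < g ∧
      z = ∑ r ∈ range (R + 1), (e r : ℤ) * P 0 R r := by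
  induction R with
  | zero =>
    refine ⟨0, fun z h0 h1 => ⟨fun _ => z.toNat, ?_, ?_, ?_⟩⟩
    · intro r h2 h3
      omega
    · simp only [Nat.factorial_zero, Nat.cast_one, mul_one] at h1
      show z.toNat < g
      omega
    · simp [P_self]
      omega
  | succ R ih =>
    obtain ⟨lo, ih⟩ := ih
    refine ⟨((R : ℤ) + 1) * (1 - lo - g * (R ! : ℤ)), fun z h0 h1 => ?_⟩
    have hpos : (0 : ℤ) < (R : ℤ) + 1 := by positivity
    have hmod := Int.emod_add_mul_ediv z ((R : ℤ) + 1)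
    have hm0 := Int.emod_nonneg z hpos.ne'
    have hm1 := Int.emod_lt_of_pos z hpos
    have h1' : z < ((R : ℤ) + 1) * (1 - lo) := by
      have e1 : (((R + 1) ! : ℕ) : ℤ) = ((R : ℤ) + 1) * (R ! : ℤ) := by
        rw [Nat.factorial_succ]; push_cast; ring
      rw [e1] at h1
      linarith
    have h2 : lo ≤ -(z / ((R : ℤ) + 1)) := by
      have : z / ((R : ℤ) + 1) < 1 - lo := by
        by_contra hc
        push Not at hc
        nlinarith
      omega
    have h3 : -(z / ((R : ℤ) + 1)) < lo + g * (R ! : ℤ) := by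
      have : 1 - lo - g * (R ! : ℤ) ≤ z / ((R : ℤ) + 1) := by
        rw [Int.le_ediv_iff_mul_le hpos]
        linarith
      omega
    obtain ⟨e, he, he0, hsum⟩ := ih _ h2 h3
    refine ⟨fun r => if r = R + 1 then (z % ((R : ℤ) + 1)).toNat else e r, ?_, ?_, ?_⟩
    · intro r hr1 hr2
      by_cases hr : r = R + 1
      · subst hr
        simp only [if_true]
        omega
      · simp only [if_neg hr]
        exact he r hr1 (by omega)
    · simp only [if_neg (Nat.succ_ne_zero R).symm]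
      exact he0
    · rw [sum_range_succ, P_self]
      simp only [if_true]
      have hs : ∑ r ∈ range (R + 1), (((if r = R + 1 then (z % ((R : ℤ) + 1)).toNat else e r : ℕ)) : ℤ)
          * P 0 (R + 1) r = (∑ r ∈ range (R + 1), (e r : ℤ) * P 0 R r) * (0 - ((R + 1 : ℕ) : ℤ)) := by
        rw [sum_mul]
        apply sum_congr rfl
        intro r hr
        rw [mem_range] at hr
        rw [if_neg (by omega), P_top 0 R r (by omega)]
        ring
      rw [hs, ← hsum, Int.toNat_of_nonneg hm0]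
      push_cast
      linarith

theorem radix_mod (g R n : ℕ) (hn : 0 < n) (hn' : n ≤ g * R !) (z : ℤ) :
    ∃ e : ℕ → ℕ, (∀ r, 1 ≤ r → r ≤ R → e r < r) ∧ e 0 < g ∧
      (n : ℤ) ∣ z - ∑ r ∈ range (R + 1), (e r : ℤ) * P 0 R r := by
  obtain ⟨lo, h⟩ := radix g R
  have hn0 : (0 : ℤ) < n := by exact_mod_cast hn
  have h1 := Int.emod_nonneg (z - lo) hn0.ne'
  have h2 := Int.emod_lt_of_pos (z - lo) hn0
  have h3 : (n : ℤ) ≤ g * (R ! : ℤ) := by exact_mod_cast hn'
  obtain ⟨e, he, he0, hs⟩ := h (lo + (z - lo) % n) (by omega) (by omega)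
  refine ⟨e, he, he0, ?_⟩
  rw [← hs]
  have h4 : z - (lo + (z - lo) % n) = (z - lo) - (z - lo) % n := by ring
  rw [h4]
  exact Int.dvd_self_sub_emod

end Pool.Agent.EGF48
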