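import Pool.Agent.EGF48.Total

/-!
# Sums of factorials: from multiplicities to a nondecreasing sequence
-/

set_option autoImplicit false

namespace Pool.Agent.EGF48

open Finset Nat Filter

/-- a nondecreasing sequence in which every `a` occurs exactly `c a` times -/
theorem exists_seq (c : ℕ → ℕ) (hinf : {a | c a ≠ 0}.Infinite) :
    ∃ u : ℕ → ℕ, Monotone u ∧ Tendsto u atTop atTop ∧ (∀ a, {i | u i = a}.ncard = c a) ∧
      (∀ i, c (u i) ≠ 0) ∧
      ∀ (f : ℕ → ℕ) (n : ℕ), ∃ m : ℕ,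
        ∑ i ∈ range (n + 1), f (u i) = ∑ a ∈ range (u n), c a * f a + m * f (u n) := by
  set C : ℕ → ℕ := fun n => ∑ a ∈ range n, c a with hCdef
  have hCs : ∀ n, C (n + 1) = C n + c n := fun n => sum_range_succ _ _
  have hCm : Monotone C := by
    apply monotone_nat_of_le_succ
    intro n
    rw [hCs]
    omega
  have hC0 : C 0 = 0 := rfl
  have hunb : ∀ k, ∃ n, k ≤ C n := by
    intro k
    induction k with
    | zero => exact ⟨0, Nat.zero_le _⟩
    | succ k ih =>
      obtain ⟨n, hn⟩ := ih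
      obtain ⟨a, ha, hna⟩ := hinf.exists_gt n
      refine ⟨a + 1, ?_⟩
      have h1 := hCm hna.le
      have h2 : c a ≠ 0 := ha
      rw [hCs]
      omega
  have hex : ∀ i, ∃ n, i < C (n + 1) := by
    intro i
    obtain ⟨n, hn⟩ := hunb (i + 1)
    exact ⟨n, lt_of_lt_of_le (Nat.lt_of_succ_le hn) (hCm (Nat.le_succ n))⟩
  classical
  set u : ℕ → ℕ := fun i => Nat.find (hex i) with hu
  have hu1 : ∀ i, i < C (u i + 1) := fun i => Nat.find_spec (hex i)
  have hu2 : ∀ i, C (u i) ≤ i := by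
    intro i
    rcases Nat.eq_zero_or_pos (u i) with h | h
    · rw [h, hC0]
      omega
    · by_contra hcon
      push Not at hcon
      have h1 := Nat.find_min (hex i) (m := u i - 1) (by
        show u i - 1 < u i
        omega)
      rw [show u i - 1 + 1 = u i by omega] at h1
      exact h1 hcon
  have hiff : ∀ i a, u i = a ↔ C a ≤ i ∧ i < C (a + 1) := by
    intro i a
    constructor
    · rintro rfl
      exact ⟨hu2 i, hu1 i⟩
    · rintro ⟨h1, h2⟩
      rcases lt_trichotomy (u i) a with h | h | h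
      · have h3 := hCm (Nat.succ_le_of_lt h)
        have h4 := hu1 i
        have h5 : C (u i + 1) ≤ C a := h3
        omega
      · exact h
      · have h3 : C (a + 1) ≤ C (u i) := hCm (Nat.succ_le_of_lt h)
        have h4 := hu2 i
        omega
  have hblock : ∀ (f : ℕ → ℕ) (a : ℕ), ∑ i ∈ range (C a), f (u i) = ∑ b ∈ range a, c b * f b := by
    intro f a
    induction a with
    | zero => rw [hC0]; simp
    | succ a ih =>
      rw [← sum_range_add_sum_Ico _ (hCm (Nat.le_succ a)), ih, sum_range_succ]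
      congr 1
      have h1 : ∀ i ∈ Ico (C a) (C (a + 1)), f (u i) = f a := by
        intro i hi
        rw [mem_Ico] at hi
        rw [(hiff i a).mpr hi]
      rw [sum_congr rfl h1, sum_const, Nat.card_Ico, hCs, smul_eq_mul, Nat.add_sub_cancel_left]
  refine ⟨u, ?_, ?_, ?_, ?_, ?_⟩
  · intro i j hij
    by_contra hcon
    push Not at hcon
    have h1 : C (u j + 1) ≤ C (u i) := hCm (Nat.succ_le_of_lt hcon)
    have h2 := hu1 j
    have h3 := hu2 i
    omega
  · rw [tendsto_atTop]
    intro a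
    filter_upwards [eventually_ge_atTop (C a)] with i hi
    by_contra hcon
    push Not at hcon
    have h1 : C (u i + 1) ≤ C a := hCm (Nat.succ_le_of_lt hcon)
    have h2 := hu1 i
    omega
  · intro a
    have h1 : {i | u i = a} = ((Ico (C a) (C (a + 1)) : Finset ℕ) : Set ℕ) := by
      ext i
      rw [mem_coe, mem_Ico]
      exact hiff i a
    rw [h1, Set.ncard_coe_finset, Nat.card_Ico, hCs, Nat.add_sub_cancel_left]
  · intro i h
    have h1 := hu1 i
    have h2 := hu2 i
    rw [hCs, h] at h1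
    omega
  · intro f n
    refine ⟨n + 1 - C (u n), ?_⟩
    have h0 := hu2 n
    rw [← sum_range_add_sum_Ico _ (show C (u n) ≤ n + 1 by omega), hblock]
    congr 1
    have h1 : ∀ i ∈ Ico (C (u n)) (n + 1), f (u i) = f (u n) := by
      intro i hi
      rw [mem_Ico] at hi
      have h2 := hu1 n
      rw [(hiff i (u n)).mpr ⟨hi.1, by omega⟩]
    rw [sum_congr rfl h1, sum_const, Nat.card_Ico, smul_eq_mul]

theorem main_seq (p : ℕ) (hp : p.Prime) :
    ∃ u : ℕ → ℕ, Monotone u ∧ 1 ≤ u 0 ∧ Tendsto u atTop atTop ∧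
      Tendsto (fun n => padicValNat p (∑ i ∈ range (n + 1), (u i)!)) atTop atTop ∧
      (∀ a, 1 < {i | u i = a}.ncard → ∃ N : ℕ, a < N ∧ p ^ 2 ∣ N ∧
        (((N - a - 2)! < p ^ padicValNat p N ∧ {i | u i = a}.ncard < N - a) ∨
          ((p - 1)! < p ^ padicValNat p N ∧
            ∃ R : ℕ, (R - 1)! < p ^ padicValNat p N ∧ N ≤ a + p * R))) ∧
      (∀ a k l, p * a ≤ k ! → k ≤ l ! →
        {i | u i = a}.ncard < (p * k + 1) * (l + 1) ^ 2) ∧
      (7 ≤ p → ∀ x, ((range x).filter (fun a => 1 < {i | u i = a}.ncard)).card ≤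
        4 * (Nat.log 2 p + 1) * (x / p ^ 2) +
          2 * p * (Nat.log 2 p + 1) * (Nat.log p x + 3)) ∧
      (7 ≤ p → ∀ x, (p - 3) * (x / p ^ 2) ≤
        ((range x).filter (fun a => {i | u i = a}.ncard = 1)).card +
          (4 * p ^ 2 + p * (Nat.log 2 p + 1) * Nat.log p x)) ∧
      (7 ≤ p → ∀ x, ∑ a ∈ (range x).filter (fun a => 1 < {i | u i = a}.ncard),
          {i | u i = a}.ncard ≤
        8224 * (Nat.log 2 p + 1) ^ 4 * (x / p ^ 2) +
          20 * p ^ 2 * (Nat.log 2 p + 1) ^ 4 * (Nat.log p x + 1) ^ 5) := by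
  have hfact : Fact p.Prime := ⟨hp⟩
  have hp2 := hp.two_le
  obtain ⟨c, hc0, hinf, hdiv, hQ, hQ'⟩ := main p hp
  obtain ⟨u, hu1, hu2, hu3, hu4, hu5⟩ := exists_seq c hinf
  refine ⟨u, hu1, ?_, hu2, ?_, ?_, ?_, ?_, ?_, ?_⟩
  · by_contra h
    have h1 : u 0 = 0 := by omega
    exact hu4 0 (by rw [h1]; exact hc0)
  · rw [tendsto_atTop]
    intro K
    rw [tendsto_atTop] at hdiv
    have h1 : ∀ᶠ n in atTop, p ^ K ≤ u n := (tendsto_atTop.mp hu2) (p ^ K)
    have h2 : ∀ᶠ n in atTop, K ≤ padicValNat p (∑ a ∈ range (u n), c a * a !) :=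
      hu2.eventually (hdiv K)
    filter_upwards [h1, h2] with n hn1 hn2
    obtain ⟨m, hm⟩ := hu5 (fun a => a !) n
    have hpos : 0 < ∑ i ∈ range (n + 1), (u i)! :=
      sum_pos (fun i _ => Nat.factorial_pos _) ⟨0, by simp⟩
    apply (padicValNat_dvd_iff_le hpos.ne').mp
    have hm' : ∑ i ∈ range (n + 1), (u i)! = ∑ a ∈ range (u n), c a * a ! + m * (u n)! := hm
    rw [hm']
    apply dvd_add
    · exact (pow_dvd_pow p hn2).trans pow_padicValNat_dvd
    · apply Dvd.dvd.mul_left
      exact Nat.dvd_factorial (pow_pos (by omega) _) hn1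
  · intro a ha
    rw [hu3 a] at ha ⊢
    rcases hQ a with h | ⟨N, haN, hN2, _, hor⟩
    · omega
    · refine ⟨N, haN, hN2, ?_⟩
      rcases hor with h | ⟨h1, R, h2, h3, _⟩
      · exact Or.inl h
      · exact Or.inr ⟨h1, R, h2, h3⟩
  · intro a k l hk hl
    rw [hu3 a]
    exact lt_of_Q hp (fun h => by rw [h]; exact hc0) (hQ a) hk hl
  · intro hp7 x
    have := card_exceptional_le hp hp7 c hQ x
    simp only [hu3]
    exact this
  · intro hp7 x
    have := card_single_ge hp hp7 c hQ' x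
    simp only [hu3]
    exact this
  · intro hp7 x
    have := sum_exceptional_le hp hp7 c hQ x
    simp only [hu3]
    exact this

end Pool.Agent.EGF48
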