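import Pool.Agent.EGF48.Count

/-!
# Sums of factorials: the total number of repeated terms
-/

set_option autoImplicit false

namespace Pool.Agent.EGF48

open Finset Nat Filter

/-- summing bounds over classes -/
lemma sum_le_classes {p : ℕ} (hp : 0 < p) (x s L C : ℕ) (b c : ℕ → ℕ) (E : Finset ℕ)
    (hE : E ⊆ range x)
    (h : ∀ a ∈ E, ∃ t ∈ Ico s L, ∃ i ∈ Ico 1 (C * t + 2), p ^ t ∣ a + i ∧ c a ≤ b t) :
    ∑ a ∈ E, c a ≤ ∑ t ∈ Ico s L, (C * t + 1) * (x / p ^ t + 1) * b t := by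
  classical
  set cl : ℕ → Finset ℕ := fun t =>
    (Ico 1 (C * t + 2)).biUnion (fun i => (range x).filter (fun a => p ^ t ∣ a + i)) with hcl
  have hcard : ∀ t, (cl t).card ≤ (C * t + 1) * (x / p ^ t + 1) := by
    intro t
    refine (card_biUnion_le_card_mul _ _ (x / p ^ t + 1)
      (fun i _ => card_class_le _ _ x (pow_pos hp _))).trans (le_of_eq ?_)
    rw [Nat.card_Ico]
    congr 1
  have h1 : ∀ a ∈ E, c a ≤ ∑ t ∈ Ico s L, if a ∈ cl t then b t else 0 := by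
    intro a ha
    obtain ⟨t, ht, i, hi, hd, hc⟩ := h a ha
    have hmem : a ∈ cl t := by
      rw [hcl]
      exact mem_biUnion.mpr ⟨i, hi, mem_filter.mpr ⟨hE ha, hd⟩⟩
    calc c a ≤ b t := hc
      _ = (if a ∈ cl t then b t else 0) := by rw [if_pos hmem]
      _ ≤ _ := single_le_sum (f := fun t => if a ∈ cl t then b t else 0)
          (fun _ _ => Nat.zero_le _) ht
  refine (sum_le_sum h1).trans ?_
  rw [sum_comm]
  apply sum_le_sum
  intro t _
  rw [← sum_filter, sum_const, smul_eq_mul]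
  apply Nat.mul_le_mul_right
  refine le_trans (card_le_card ?_) (hcard t)
  intro a ha
  exact (mem_filter.mp ha).2

/-- a geometric sum -/
lemma sum_pow_mul_div_le {p : ℕ} (hp : 6 ≤ p) (x s M e K : ℕ)
    (hK : ∀ j, (s + j) ^ e ≤ K * 3 ^ j) :
    ∑ t ∈ Ico s M, t ^ e * (x / p ^ t) ≤ 2 * K * (x / p ^ s) := by
  rw [sum_Ico_eq_sum_range]
  have h1 : ∀ j ∈ range (M - s), (s + j) ^ e * (x / p ^ (s + j)) ≤ K * (x / p ^ s / 2 ^ j) := by
    intro j _
    have h2 : 3 ^ j * (x / p ^ (s + j)) ≤ x / p ^ s / 2 ^ j := by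
      rw [Nat.le_div_iff_mul_le (by positivity), pow_add, ← Nat.div_div_eq_div_mul]
      calc 3 ^ j * (x / p ^ s / p ^ j) * 2 ^ j = (3 * 2) ^ j * (x / p ^ s / p ^ j) := by
            rw [mul_pow]
            ring
        _ ≤ p ^ j * (x / p ^ s / p ^ j) := Nat.mul_le_mul_right _ (Nat.pow_le_pow_left hp j)
        _ ≤ x / p ^ s := Nat.mul_div_le _ _
    calc (s + j) ^ e * (x / p ^ (s + j)) ≤ K * 3 ^ j * (x / p ^ (s + j)) :=
          Nat.mul_le_mul_right _ (hK j)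
      _ = K * (3 ^ j * (x / p ^ (s + j))) := by ring
      _ ≤ _ := Nat.mul_le_mul_left _ h2
  refine (sum_le_sum h1).trans ?_
  rw [← mul_sum]
  have h3 := Nat.geom_sum_le (le_refl 2) (x / p ^ s) (M - s)
  calc K * ∑ j ∈ range (M - s), x / p ^ s / 2 ^ j ≤ K * (x / p ^ s * 2 / (2 - 1)) :=
        Nat.mul_le_mul_left _ h3
    _ = 2 * K * (x / p ^ s) := by
        simp only [Nat.div_one, show 2 - 1 = 1 from rfl]
        ring

lemma sq_bound (j : ℕ) : (2 + j) ^ 2 ≤ 4 * 3 ^ j := by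
  induction j with
  | zero => norm_num
  | succ j ih =>
    rw [pow_succ 3 j]
    nlinarith [Nat.zero_le (j * j)]

lemma fourth_bound (j : ℕ) : (4 + j) ^ 4 ≤ 256 * 3 ^ j := by
  induction j with
  | zero => norm_num
  | succ j ih =>
    have h1 : (4 + (j + 1)) ^ 4 ≤ 3 * (4 + j) ^ 4 := by
      have e1 : 3 * (4 + j) ^ 4 = (4 + (j + 1)) ^ 4 +
        (2 * j ^ 4 + 28 * j ^ 3 + 138 * j ^ 2 + 268 * j + 143) := by ring
      omega
    rw [pow_succ 3 j]
    omega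

/-- the total number of repeated terms -/
theorem sum_exceptional_le {p : ℕ} (hp : p.Prime) (hp7 : 7 ≤ p) (c : ℕ → ℕ)
    (hQ : ∀ a, Q p a (c a)) (x : ℕ) :
    ∑ a ∈ (range x).filter (fun a => 1 < c a), c a ≤
      8224 * (Nat.log 2 p + 1) ^ 4 * (x / p ^ 2) +
        20 * p ^ 2 * (Nat.log 2 p + 1) ^ 4 * (Nat.log p x + 1) ^ 5 := by
  classical
  have hfact : Fact p.Prime := ⟨hp⟩
  have hp2 := hp.two_le
  set E := (range x).filter (fun a => 1 < c a) with hEdef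
  -- members of short windows
  set S : ℕ → Prop := fun a => ∃ N : ℕ, a < N ∧ p ^ 2 ∣ N ∧
    padicValNat p N ≤ Nat.log p a + 1 ∧ (N - a - 2)! < p ^ padicValNat p N ∧ c a < N - a with hS
  have hE1 : E.filter S ⊆ range x := (filter_subset _ _).trans (filter_subset _ _)
  have hE2 : E.filter (fun a => ¬ S a) ⊆ range x := (filter_subset _ _).trans (filter_subset _ _)
  rw [← sum_filter_add_sum_filter_not E S]
  generalize hBdef : Nat.log 2 p + 1 = B
  have hB1 : 1 ≤ B := by omega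
  have hA1 : ∑ a ∈ E.filter S, c a ≤
      ∑ t ∈ Ico 2 (Nat.log p x + 2), (B * t + 1) * (x / p ^ t + 1) * (B * t + 1) := by
    apply sum_le_classes (by omega) x 2 _ B (fun t => B * t + 1) c _ hE1
    intro a ha
    rw [mem_filter] at ha
    have hax : a < x := mem_range.mp (hE1 (mem_filter.mpr ha))
    have hlog' : Nat.log p a ≤ Nat.log p x := Nat.log_mono_right hax.le
    obtain ⟨N, haN, hN2, hlog, hfac, hlt⟩ := ha.2
    have hN0 : N ≠ 0 := by omega
    have hval : p ^ padicValNat p N ∣ N := pow_padicValNat_dvd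
    have hv : 2 ≤ padicValNat p N := (padicValNat_dvd_iff_le hN0).mp hN2
    have h1 : N - a - 1 ≤ (Nat.log 2 p + 1) * padicValNat p N := by
      apply le_of_factorial_lt hp2 hv
      rwa [show N - a - 1 - 1 = N - a - 2 by omega]
    rw [hBdef] at h1
    refine ⟨padicValNat p N, mem_Ico.mpr ⟨hv, by omega⟩, N - a, mem_Ico.mpr ⟨by omega, by omega⟩,
      ?_, by omega⟩
    rw [show a + (N - a) = N by omega]
    exact hval
  have hA2 : ∑ a ∈ E.filter (fun a => ¬ S a), c a ≤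
      ∑ t ∈ Ico 4 (Nat.log p x + 2), (p * B * t + 1) * (x / p ^ t + 1) *
        ((p * B * t + 1) * (B * t + 1) ^ 2) := by
    apply sum_le_classes (by omega) x 4 _ (p * B) (fun t => (p * B * t + 1) * (B * t + 1) ^ 2) c _
      hE2
    intro a ha
    rw [mem_filter] at ha
    have hax : a < x := mem_range.mp (hE2 (mem_filter.mpr ha))
    have hlog' : Nat.log p a ≤ Nat.log p x := Nat.log_mono_right hax.le
    have hca : 1 < c a := (mem_filter.mp ha.1).2
    rcases hQ a with h | ⟨N, haN, hN2, hlog, ⟨hfac, hlt⟩ | ⟨hfac, R, hR, hNR, hall⟩⟩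
    · omega
    · exact absurd ⟨N, haN, hN2, hlog, hfac, hlt⟩ ha.2
    · have hN0 : N ≠ 0 := by omega
      have hval : p ^ padicValNat p N ∣ N := pow_padicValNat_dvd
      have hv : 2 ≤ padicValNat p N := (padicValNat_dvd_iff_le hN0).mp hN2
      have h1 : R ≤ (Nat.log 2 p + 1) * padicValNat p N := le_of_factorial_lt hp2 hv hR
      rw [hBdef] at h1
      have h2 : p * R ≤ p * (B * padicValNat p N) := Nat.mul_le_mul_left _ h1
      rw [← mul_assoc] at h2
      have h3 : 4 ≤ padicValNat p N := by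
        by_contra hcon
        have h4 : p ^ padicValNat p N ≤ p ^ 3 := Nat.pow_le_pow_right (by omega) (by omega)
        have := cube_le_factorial p hp7
        omega
      have hR1 : 1 ≤ R := by
        by_contra hcon
        have : R = 0 := by omega
        rw [this, mul_zero] at hNR
        omega
      have h4 := hall R hR1 (Nat.self_le_factorial R)
      refine ⟨padicValNat p N, mem_Ico.mpr ⟨h3, by omega⟩, N - a,
        mem_Ico.mpr ⟨by omega, by omega⟩, ?_, ?_⟩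
      · rw [show a + (N - a) = N by omega]
        exact hval
      · refine le_trans h4.le (Nat.mul_le_mul (by omega) (Nat.pow_le_pow_left (by omega) 2))
  -- the first sum
  have hS1 : ∑ t ∈ Ico 2 (Nat.log p x + 2), (B * t + 1) * (x / p ^ t + 1) * (B * t + 1) ≤
      32 * B ^ 2 * (x / p ^ 2) + 4 * B ^ 2 * (Nat.log p x + 1) ^ 3 := by
    have h1 : ∀ t ∈ Ico 2 (Nat.log p x + 2), (B * t + 1) * (x / p ^ t + 1) * (B * t + 1) ≤
        4 * B ^ 2 * (t ^ 2 * (x / p ^ t)) + 4 * B ^ 2 * (Nat.log p x + 1) ^ 2 := by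
      intro t ht
      rw [mem_Ico] at ht
      have h2 : B * t + 1 ≤ 2 * (B * t) := by
        have : 1 * 1 ≤ B * t := Nat.mul_le_mul hB1 (by omega)
        omega
      have h3 : t ^ 2 ≤ (Nat.log p x + 1) ^ 2 := Nat.pow_le_pow_left (by omega) 2
      calc (B * t + 1) * (x / p ^ t + 1) * (B * t + 1)
          ≤ 2 * (B * t) * (x / p ^ t + 1) * (2 * (B * t)) :=
            Nat.mul_le_mul (Nat.mul_le_mul_right _ h2) h2
        _ = 4 * B ^ 2 * (t ^ 2 * (x / p ^ t)) + 4 * B ^ 2 * t ^ 2 := by ring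
        _ ≤ _ := Nat.add_le_add_left (Nat.mul_le_mul_left _ h3) _
    refine (sum_le_sum h1).trans ?_
    rw [sum_add_distrib, ← mul_sum, sum_const, Nat.card_Ico, smul_eq_mul]
    have h4 := sum_pow_mul_div_le (show 6 ≤ p by omega) x 2 (Nat.log p x + 2) 2 4 sq_bound
    have h5 : (Nat.log p x + 2 - 2) * (4 * B ^ 2 * (Nat.log p x + 1) ^ 2) ≤
        4 * B ^ 2 * (Nat.log p x + 1) ^ 3 := by
      calc (Nat.log p x + 2 - 2) * (4 * B ^ 2 * (Nat.log p x + 1) ^ 2)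
          ≤ (Nat.log p x + 1) * (4 * B ^ 2 * (Nat.log p x + 1) ^ 2) :=
            Nat.mul_le_mul_right _ (by omega)
        _ = _ := by ring
    have h6 := Nat.mul_le_mul_left (4 * B ^ 2) h4
    calc _ ≤ 4 * B ^ 2 * (2 * 4 * (x / p ^ 2)) + 4 * B ^ 2 * (Nat.log p x + 1) ^ 3 :=
          Nat.add_le_add h6 h5
      _ = _ := by ring
  -- the second sum
  have hS2 : ∑ t ∈ Ico 4 (Nat.log p x + 2), (p * B * t + 1) * (x / p ^ t + 1) *
        ((p * B * t + 1) * (B * t + 1) ^ 2) ≤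
      8192 * B ^ 4 * (x / p ^ 2) + 16 * p ^ 2 * B ^ 4 * (Nat.log p x + 1) ^ 5 := by
    have h1 : ∀ t ∈ Ico 4 (Nat.log p x + 2), (p * B * t + 1) * (x / p ^ t + 1) *
        ((p * B * t + 1) * (B * t + 1) ^ 2) ≤
        16 * p ^ 2 * B ^ 4 * (t ^ 4 * (x / p ^ t)) +
          16 * p ^ 2 * B ^ 4 * (Nat.log p x + 1) ^ 4 := by
      intro t ht
      rw [mem_Ico] at ht
      have h2 : B * t + 1 ≤ 2 * (B * t) := by
        have : 1 * 1 ≤ B * t := Nat.mul_le_mul hB1 (by omega)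
        omega
      have h2' : p * B * t + 1 ≤ 2 * (p * B * t) := by
        have : 1 * 1 * 1 ≤ p * B * t := Nat.mul_le_mul (Nat.mul_le_mul (by omega) hB1) (by omega)
        omega
      have h3 : t ^ 4 ≤ (Nat.log p x + 1) ^ 4 := Nat.pow_le_pow_left (by omega) 4
      calc (p * B * t + 1) * (x / p ^ t + 1) * ((p * B * t + 1) * (B * t + 1) ^ 2)
          ≤ 2 * (p * B * t) * (x / p ^ t + 1) * (2 * (p * B * t) * (2 * (B * t)) ^ 2) :=
            Nat.mul_le_mul (Nat.mul_le_mul_right _ h2')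
              (Nat.mul_le_mul h2' (Nat.pow_le_pow_left h2 2))
        _ = 16 * p ^ 2 * B ^ 4 * (t ^ 4 * (x / p ^ t)) + 16 * p ^ 2 * B ^ 4 * t ^ 4 := by ring
        _ ≤ _ := Nat.add_le_add_left (Nat.mul_le_mul_left _ h3) _
    refine (sum_le_sum h1).trans ?_
    rw [sum_add_distrib, ← mul_sum, sum_const, Nat.card_Ico, smul_eq_mul]
    have h4 := sum_pow_mul_div_le (show 6 ≤ p by omega) x 4 (Nat.log p x + 2) 4 256 fourth_bound
    have h5 : (Nat.log p x + 2 - 4) * (16 * p ^ 2 * B ^ 4 * (Nat.log p x + 1) ^ 4) ≤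
        16 * p ^ 2 * B ^ 4 * (Nat.log p x + 1) ^ 5 := by
      calc (Nat.log p x + 2 - 4) * (16 * p ^ 2 * B ^ 4 * (Nat.log p x + 1) ^ 4)
          ≤ (Nat.log p x + 1) * (16 * p ^ 2 * B ^ 4 * (Nat.log p x + 1) ^ 4) :=
            Nat.mul_le_mul_right _ (by omega)
        _ = _ := by ring
    have h6 := Nat.mul_le_mul_left (16 * p ^ 2 * B ^ 4) h4
    have h7 : p ^ 2 * (x / p ^ 4) ≤ x / p ^ 2 := by
      rw [show p ^ 4 = p ^ 2 * p ^ 2 by ring, ← Nat.div_div_eq_div_mul]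
      exact Nat.mul_div_le _ _
    calc _ ≤ 16 * p ^ 2 * B ^ 4 * (2 * 256 * (x / p ^ 4)) +
          16 * p ^ 2 * B ^ 4 * (Nat.log p x + 1) ^ 5 := Nat.add_le_add h6 h5
      _ = 8192 * B ^ 4 * (p ^ 2 * (x / p ^ 4)) +
          16 * p ^ 2 * B ^ 4 * (Nat.log p x + 1) ^ 5 := by ring
      _ ≤ _ := Nat.add_le_add_right (Nat.mul_le_mul_left _ h7) _
  have hB24 : B ^ 2 ≤ B ^ 4 := Nat.pow_le_pow_right hB1 (by omega)
  have hL : (Nat.log p x + 1) ^ 3 ≤ (Nat.log p x + 1) ^ 5 :=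
    Nat.pow_le_pow_right (by omega) (by omega)
  have hpp : 1 ≤ p ^ 2 := Nat.one_le_pow _ _ (by omega)
  have hfin1 : 32 * B ^ 2 * (x / p ^ 2) ≤ 32 * B ^ 4 * (x / p ^ 2) :=
    Nat.mul_le_mul_right _ (Nat.mul_le_mul_left _ hB24)
  have hfin2 : 4 * B ^ 2 * (Nat.log p x + 1) ^ 3 ≤
      4 * p ^ 2 * B ^ 4 * (Nat.log p x + 1) ^ 5 := by
    calc 4 * B ^ 2 * (Nat.log p x + 1) ^ 3 ≤ 4 * B ^ 4 * (Nat.log p x + 1) ^ 5 :=
          Nat.mul_le_mul (Nat.mul_le_mul_left _ hB24) hL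
      _ = 1 * (4 * B ^ 4 * (Nat.log p x + 1) ^ 5) := by ring
      _ ≤ p ^ 2 * (4 * B ^ 4 * (Nat.log p x + 1) ^ 5) := Nat.mul_le_mul_right _ hpp
      _ = _ := by ring
  calc _ ≤ (32 * B ^ 2 * (x / p ^ 2) + 4 * B ^ 2 * (Nat.log p x + 1) ^ 3) +
        (8192 * B ^ 4 * (x / p ^ 2) + 16 * p ^ 2 * B ^ 4 * (Nat.log p x + 1) ^ 5) :=
        Nat.add_le_add (hA1.trans hS1) (hA2.trans hS2)
    _ ≤ (32 * B ^ 4 * (x / p ^ 2) + 4 * p ^ 2 * B ^ 4 * (Nat.log p x + 1) ^ 5) +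
        (8192 * B ^ 4 * (x / p ^ 2) + 16 * p ^ 2 * B ^ 4 * (Nat.log p x + 1) ^ 5) :=
        Nat.add_le_add_right (Nat.add_le_add hfin1 hfin2) _
    _ = _ := by ring

end Pool.Agent.EGF48
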