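import Pool.Agent.EGF48.Basic
import Pool.Agent.EGF48.Radix

/-!
# Sums of factorials: passing a multiple of `p ^ 2`
-/

set_option autoImplicit false

namespace Pool.Agent.EGF48

open Finset Nat

/-! ### arithmetic -/

lemma pow_val_dvd {p : ℕ} [Fact p.Prime] (N t r : ℕ) (hN : N ≠ 0) (hNt : p ^ t ∣ N)
    (hr0 : 0 < r) (hr : r < p ^ t) : p ^ padicValNat p (N - r) ∣ r := by
  have hNle : p ^ t ≤ N := Nat.le_of_dvd (Nat.pos_of_ne_zero hN) hNt
  have c1 : p ^ padicValNat p (N - r) ∣ N - r := pow_padicValNat_dvd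
  have c2 : padicValNat p (N - r) ≤ t := by
    by_contra hc
    push Not at hc
    have c3 : p ^ t ∣ N - r := (pow_dvd_pow p hc.le).trans c1
    have c4 : p ^ t ∣ r := by
      have := Nat.dvd_sub hNt c3
      rwa [show N - (N - r) = r by omega] at this
    exact absurd (Nat.le_of_dvd (by omega) c4) (by omega)
  have c5 : p ^ padicValNat p (N - r) ∣ N := (pow_dvd_pow p c2).trans hNt
  have := Nat.dvd_sub c5 c1
  rwa [show N - (N - r) = r by omega] at this

lemma val_eq_zero {p a : ℕ} (h : ¬ p ∣ a) : padicValNat p a = 0 :=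
  padicValNat.eq_zero_of_not_dvd h

/-- the sum identity behind the exchange `(a+1)! + (n - a) a! = (n+1) a!` -/
lemma exchange {A : Type*} [CommRing A] (M n : ℕ) (hMn : M ≤ n) (d : ℕ → ℕ)
    (hd0 : d (M - 1) = 0) :
    ∑ a ∈ Ico M (n + 1), ((d (a - 1) + (n - a) * d a : ℕ) : A) * ((a ! : ℕ) : A) =
      ((n + 1 : ℕ) : A) * ∑ a ∈ Ico M n, (d a : A) * ((a ! : ℕ) : A) := by
  have e1 : ∀ a ∈ Ico M (n + 1), ((d (a - 1) + (n - a) * d a : ℕ) : A) * ((a ! : ℕ) : A) =
      (d (a - 1) : A) * ((a ! : ℕ) : A) + (((n - a) * d a : ℕ) : A) * ((a ! : ℕ) : A) := by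
    intro a _
    push_cast
    ring
  rw [sum_congr rfl e1, sum_add_distrib]
  have e2 : ∑ a ∈ Ico M (n + 1), (((n - a) * d a : ℕ) : A) * ((a ! : ℕ) : A) =
      ∑ a ∈ Ico M n, (((n - a) * d a : ℕ) : A) * ((a ! : ℕ) : A) := by
    rw [sum_Ico_succ_top hMn]
    simp
  have e3 : ∑ a ∈ Ico M (n + 1), (d (a - 1) : A) * ((a ! : ℕ) : A) =
      ∑ a ∈ Ico M n, (d a : A) * (((a + 1)! : ℕ) : A) := by
    rw [sum_eq_sum_Ico_succ_bot (by omega), hd0, Nat.cast_zero, zero_mul, zero_add]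
    rw [← sum_Ico_add' (fun a => (d (a - 1) : A) * ((a ! : ℕ) : A)) M n 1]
    apply sum_congr rfl
    intro a _
    rfl
  rw [e2, e3, ← sum_add_distrib, mul_sum]
  apply sum_congr rfl
  intro a ha
  rw [mem_Ico] at ha
  rw [Nat.factorial_succ]
  have : ((n - a : ℕ) : A) = (n : A) - (a : A) := Nat.cast_sub ha.2.le
  push_cast
  rw [this]
  ring

/-- factorials below `n + 1` as multiples of `(n - R)!` -/
lemma factorial_eq (n r : ℕ) : ∀ R, r ≤ R → R ≤ n →
    (((n - r)! : ℕ) : ℤ) = (((n - R)! : ℕ) : ℤ) * P ((n + 1 : ℕ) : ℤ) R r := by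
  intro R hrR
  induction R, hrR using Nat.le_induction with
  | base =>
    intro _
    rw [P_self, mul_one]
  | succ R hR ih =>
    intro hn
    rw [ih (by omega), P_top _ _ _ hR]
    obtain ⟨m, hm⟩ : ∃ m, n = m + (R + 1) := ⟨n - (R + 1), by omega⟩
    subst hm
    rw [show m + (R + 1) - R = m + 1 by omega, Nat.add_sub_cancel, Nat.factorial_succ]
    push_cast
    ring

/-- reindexing from below `n + 1` -/
lemma sum_reindex {A : Type*} [AddCommMonoid A] (n R : ℕ) (hR : R ≤ n) (F : ℕ → A) :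
    ∑ a ∈ Ico (n - R) (n + 1), F a = ∑ r ∈ range (R + 1), F (n - r) := by
  rw [sum_Ico_eq_sum_range, show n + 1 - (n - R) = R + 1 by omega,
    ← sum_range_reflect (fun r => F (n - r)) (R + 1)]
  apply sum_congr rfl
  intro i hi
  rw [mem_range] at hi
  congr 1
  omega

/-- the first round: `n + 1` divides `x + ∑ e_r P_r` for some digits `e_r < r` -/
lemma first_round {p : ℕ} [hp : Fact p.Prime] (N t R : ℕ) (hN : N ≠ 0)
    (ht : padicValNat p N = t) (hR : p ^ t ≤ R !) (x : ℤ_[p]) :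
    ∃ e : ℕ → ℕ, e 0 = 0 ∧ (∀ r, 1 ≤ r → r ≤ R → e r < r) ∧
      (N : ℤ_[p]) ∣ x + ∑ r ∈ range (R + 1), (e r : ℤ_[p]) * ((P N R r : ℤ) : ℤ_[p]) := by
  have hp2 := hp.out.two_le
  have hPq : ∀ r, (N : ℤ_[p]) ∣ ((P N R r : ℤ) : ℤ_[p]) - ((P 0 R r : ℤ) : ℤ_[p]) := by
    intro r
    obtain ⟨m, hm⟩ := P_sub_dvd (N : ℤ) R r
    refine ⟨(m : ℤ_[p]), ?_⟩
    rw [← Int.cast_sub, hm]
    push_cast
    rfl
  obtain ⟨e, he, he0, hs1⟩ := radix_mod 1 R (p ^ t) (pow_pos (by omega) _)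
    (by rw [one_mul]; exact hR) (-((x.appr t : ℕ) : ℤ))
  refine ⟨e, by omega, he, ?_⟩
  have a1 : (N : ℤ_[p]) ∣ x - ((x.appr t : ℕ) : ℤ_[p]) := by
    apply cast_dvd_of_pow_dvd hN
    rw [ht]
    have := PadicInt.appr_spec t x
    rwa [Ideal.mem_span_singleton] at this
  have a2 : (N : ℤ_[p]) ∣
      (((-((x.appr t : ℕ) : ℤ)) - ∑ r ∈ range (R + 1), (e r : ℤ) * P 0 R r : ℤ) : ℤ_[p]) := by
    apply cast_dvd_of_pow_dvd hN
    rw [ht]
    obtain ⟨m, hm⟩ := hs1
    refine ⟨(m : ℤ_[p]), ?_⟩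
    rw [hm]
    push_cast
    rfl
  have a3 : (N : ℤ_[p]) ∣
      ∑ r ∈ range (R + 1), (e r : ℤ_[p]) * ((P N R r : ℤ) : ℤ_[p]) -
        ∑ r ∈ range (R + 1), (e r : ℤ_[p]) * ((P 0 R r : ℤ) : ℤ_[p]) := by
    rw [← sum_sub_distrib]
    apply dvd_sum
    intro r _
    rw [← mul_sub]
    exact (hPq r).mul_left _
  push_cast at a2
  have a4 := dvd_add (dvd_sub a1 a2) a3
  convert a4 using 1
  ring

theorem ext_two {p : ℕ} [hp : Fact p.Prime] (n t R : ℕ)
    (ht : padicValNat p (n + 1) = t) (ht2 : 2 ≤ t) (hR : p ^ t ≤ R !)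
    (hR' : (R - 1)! < p ^ t) (hRt : R + 1 ≤ p ^ t) (hM : 1 ≤ n - R) :
    Ext p (fun a m => m ≤ 1 ∨ ((n + 1 - a - 2)! < p ^ t ∧ m < (n + 1 - a) ^ 2))
      (n - R) (n + 1) := by
  have hp2 := hp.out.two_le
  have hNt : p ^ t ∣ n + 1 := by
    rw [← ht]
    exact pow_padicValNat_dvd
  have hNle : p ^ t ≤ n + 1 := Nat.le_of_dvd (Nat.succ_pos n) hNt
  have hpN : p ∣ n + 1 := (dvd_pow_self p (by omega)).trans hNt
  set M := n - R with hMdef
  have hMn : M + R = n := by omega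
  rintro S ⟨x, rfl⟩
  -- first round
  obtain ⟨e, he0, he, W, hW⟩ := first_round (p := p) (n + 1) t R (Nat.succ_ne_zero n) ht hR x
  have hfirst : ((M ! : ℕ) : ℤ_[p]) * x +
      ∑ a ∈ Ico M (n + 1), (e (n - a) : ℤ_[p]) * ((a ! : ℕ) : ℤ_[p]) =
      ((M ! : ℕ) : ℤ_[p]) * (((n + 1 : ℕ) : ℤ_[p]) * W) := by
    rw [← hW, mul_add]
    congr 1
    rw [hMdef, sum_reindex n R (by omega), mul_sum]
    apply sum_congr rfl
    intro r hr
    rw [mem_range] at hr
    have h1 := factorial_eq n r R (by omega) (by omega)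
    have h2 : (((n - r)! : ℕ) : ℤ_[p]) =
        (((n - R)! : ℕ) : ℤ_[p]) * ((P ((n + 1 : ℕ) : ℤ) R r : ℤ) : ℤ_[p]) := by
      have h3 : (((((n - r)! : ℕ) : ℤ)) : ℤ_[p]) =
          (((((n - R)! : ℕ) : ℤ) * P ((n + 1 : ℕ) : ℤ) R r : ℤ) : ℤ_[p]) := by
        rw [h1]
      push_cast at h3 ⊢
      exact h3
    rw [show n - (n - r) = r by omega, h2]
    ring
  -- second round
  obtain ⟨d, hd, y, hy⟩ := ext_digits (p := p) M R (((M ! : ℕ) : ℤ_[p]) * W) (dvd_mul_right _ _)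
  rw [hMn] at hd hy
  set d' : ℕ → ℕ := fun a => if M ≤ a ∧ a < n then d a else 0 with hd'def
  have hd'0 : d' (M - 1) = 0 := by
    simp only [hd'def]
    rw [if_neg]
    omega
  have hd'lt : ∀ a, d' a < p ^ padicValNat p (a + 1) := by
    intro a
    simp only [hd'def]
    split_ifs with h
    · exact hd a h.1 h.2
    · exact pow_pos (by omega) _
  refine ⟨fun a => e (n - a) + (d' (a - 1) + (n - a) * d' a), ?_, ?_⟩
  · intro a ha1 ha2
    have hda : d' (a - 1) < p ^ padicValNat p a := by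
      have := hd'lt (a - 1)
      rwa [show a - 1 + 1 = a by omega] at this
    show e (n - a) + (d' (a - 1) + (n - a) * d' a) ≤ 1 ∨ ((n + 1 - a - 2)! < p ^ t ∧
      e (n - a) + (d' (a - 1) + (n - a) * d' a) < (n + 1 - a) ^ 2)
    rcases Nat.eq_or_lt_of_le (Nat.lt_succ_iff.mp ha2) with h | h
    · left
      have hpa : ¬ p ∣ a := by
        intro h1
        rw [h] at h1
        have := (Nat.dvd_add_right h1).mp hpN
        have := Nat.le_of_dvd one_pos this
        omega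
      rw [val_eq_zero hpa, pow_zero] at hda
      rw [h] at hda ⊢
      rw [Nat.sub_self, zero_mul, he0]
      omega
    · have hr0 : 1 ≤ n - a := by omega
      have hrR : n - a ≤ R := by omega
      have hv : p ^ padicValNat p (a + 1) ∣ n - a := by
        have := pow_val_dvd (p := p) (n + 1) t (n - a) (Nat.succ_ne_zero n) hNt hr0 (by omega)
        rwa [show n + 1 - (n - a) = a + 1 by omega] at this
      have hv' := Nat.le_of_dvd hr0 hv
      have he1 := he (n - a) hr0 hrR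
      have hd1 := hd'lt a
      have hd2 : d' (a - 1) ≤ n - a := by
        by_cases haM : a = M
        · rw [haM, hd'0]
          omega
        · have hv2 : p ^ padicValNat p a ∣ n + 1 - a := by
            have := pow_val_dvd (p := p) (n + 1) t (n + 1 - a) (Nat.succ_ne_zero n) hNt
              (by omega) (by omega)
            rwa [show n + 1 - (n + 1 - a) = a by omega] at this
          have := Nat.le_of_dvd (by omega) hv2
          omega
      right
      refine ⟨?_, ?_⟩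
      · refine lt_of_le_of_lt (Nat.factorial_le ?_) hR'
        omega
      · have h3 : (n - a) * d' a ≤ (n - a) * (n - a) := Nat.mul_le_mul_left _ (by omega)
        have h4 : (n + 1 - a) ^ 2 = (n - a) * (n - a) + 2 * (n - a) + 1 := by
          rw [show n + 1 - a = (n - a) + 1 by omega]
          ring
        omega
  · have k1 : ∑ a ∈ Ico M (n + 1), ((e (n - a) + (d' (a - 1) + (n - a) * d' a) : ℕ) : ℤ_[p]) *
        ((a ! : ℕ) : ℤ_[p]) =
        ∑ a ∈ Ico M (n + 1), (e (n - a) : ℤ_[p]) * ((a ! : ℕ) : ℤ_[p]) +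
        ((n + 1 : ℕ) : ℤ_[p]) * ∑ a ∈ Ico M n, (d a : ℤ_[p]) * ((a ! : ℕ) : ℤ_[p]) := by
      have k2 : ∑ a ∈ Ico M n, (d a : ℤ_[p]) * ((a ! : ℕ) : ℤ_[p]) =
          ∑ a ∈ Ico M n, (d' a : ℤ_[p]) * ((a ! : ℕ) : ℤ_[p]) := by
        apply sum_congr rfl
        intro a ha
        rw [mem_Ico] at ha
        simp only [hd'def]
        rw [if_pos ha]
      rw [k2, ← exchange M n (by omega) d' hd'0, ← sum_add_distrib]
      apply sum_congr rfl
      intro a _
      push_cast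
      ring
    show _ ∣ ((M ! : ℕ) : ℤ_[p]) * x +
      ∑ a ∈ Ico M (n + 1), ((e (n - a) + (d' (a - 1) + (n - a) * d' a) : ℕ) : ℤ_[p]) *
        ((a ! : ℕ) : ℤ_[p])
    rw [k1, ← add_assoc, hfirst]
    refine ⟨y, ?_⟩
    rw [Nat.factorial_succ]
    push_cast at hy ⊢
    linear_combination ((n : ℤ_[p]) + 1) * hy

end Pool.Agent.EGF48
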